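import Pool.Agent.L0h50.NR.Stm

/-!
# NR, module RED: reduction of the lattices `g (𝓞 F)²`
-/

set_option autoImplicit false

open NumberField
open scoped Classical ComplexConjugate

namespace Pool.Agent.L0h50.NR

/-- one place -/
theorem perp {𝕜 : Type} [RCLike 𝕜] {U₁ U₂ W₁ W₂ : 𝕜} (h : U₁ * W₂ - U₂ * W₁ = 1) {m : ℝ} (hm : 0 < m)
    (hU : m ≤ max ‖U₁‖ ‖U₂‖) : ∃ α : 𝕜, ‖W₁ - α * U₁‖ ≤ 1 / m ∧ ‖W₂ - α * U₂‖ ≤ 1 / m := by
  obtain ⟨M, hM⟩ : ∃ M, M = max ‖U₁‖ ‖U₂‖ := ⟨_, rfl⟩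
  have hM0 : 0 < M := by rw [hM]; exact lt_of_lt_of_le hm hU
  have h1 : ‖U₁‖ ≤ M := by rw [hM]; exact le_max_left _ _
  have h2 : ‖U₂‖ ≤ M := by rw [hM]; exact le_max_right _ _
  obtain ⟨N, hN⟩ : ∃ N : ℝ, N = ‖U₁‖ ^ 2 + ‖U₂‖ ^ 2 := ⟨_, rfl⟩
  have hNM : M ^ 2 ≤ N := by
    rw [hN, hM]
    rcases max_choice ‖U₁‖ ‖U₂‖ with h3 | h3
    · rw [h3]; nlinarith [sq_nonneg ‖U₂‖]
    · rw [h3]; nlinarith [sq_nonneg ‖U₁‖]
  have hN0 : 0 < N := lt_of_lt_of_le (by positivity) hNM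
  have hNk : (N : 𝕜) = conj U₁ * U₁ + conj U₂ * U₂ := by
    rw [hN, RCLike.conj_mul, RCLike.conj_mul]
    push_cast
    rfl
  have hNk0 : (N : 𝕜) ≠ 0 := by exact_mod_cast hN0.ne'
  have key : ∀ x : 𝕜, ‖x‖ ≤ M → ‖x / (N : 𝕜)‖ ≤ 1 / m := by
    intro x hx
    rw [norm_div, RCLike.norm_ofReal, abs_of_pos hN0, div_le_div_iff₀ hN0 hm]
    have h3 : m ≤ M := by rw [hM]; exact hU
    have h4 : 0 ≤ ‖x‖ := norm_nonneg _
    nlinarith
  refine ⟨(W₁ * conj U₁ + W₂ * conj U₂) / (N : 𝕜), ?_, ?_⟩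
  · have e1 : W₁ - (W₁ * conj U₁ + W₂ * conj U₂) / (N : 𝕜) * U₁ = -conj U₂ / (N : 𝕜) := by
      field_simp
      rw [hNk]
      linear_combination (-conj U₂) * h
    rw [e1]
    apply key
    rw [norm_neg, RCLike.norm_conj]
    exact h2
  · have e1 : W₂ - (W₁ * conj U₁ + W₂ * conj U₂) / (N : 𝕜) * U₂ = conj U₁ / (N : 𝕜) := by
      field_simp
      rw [hNk]
      linear_combination (conj U₁) * h
    rw [e1]
    apply key
    rw [RCLike.norm_conj]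
    exact h1

theorem norm_E_le {F : Type} [Field F] [NumberField F] {x : E F} {R : ℝ} (hR : 0 ≤ R)
    (h1 : ∀ w, ‖x.1 w‖ ≤ R) (h2 : ∀ w, ‖x.2 w‖ ≤ R) : ‖x‖ ≤ R := by
  rw [Prod.norm_def]
  exact max_le ((pi_norm_le_iff_of_nonneg hR).mpr h1) ((pi_norm_le_iff_of_nonneg hR).mpr h2)

/-- all places -/
theorem perpE {F : Type} [Field F] [NumberField F] {U₁ U₂ W₁ W₂ : E F} (h : U₁ * W₂ - U₂ * W₁ = 1)
    {m : ℝ} (hm : 0 < m) (hU : ∀ w, m ≤ max ‖U₁.1 w‖ ‖U₂.1 w‖) (hU' : ∀ w, m ≤ max ‖U₁.2 w‖ ‖U₂.2 w‖) :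
    ∃ α : E F, ‖W₁ - α * U₁‖ ≤ 1 / m ∧ ‖W₂ - α * U₂‖ ≤ 1 / m := by
  have hr : ∀ w, ∃ a : ℝ, ‖W₁.1 w - a * U₁.1 w‖ ≤ 1 / m ∧ ‖W₂.1 w - a * U₂.1 w‖ ≤ 1 / m := by
    intro w
    apply perp _ hm (hU w)
    have := congrFun (congrArg Prod.fst h) w
    simpa using this
  have hc : ∀ w, ∃ a : ℂ, ‖W₁.2 w - a * U₁.2 w‖ ≤ 1 / m ∧ ‖W₂.2 w - a * U₂.2 w‖ ≤ 1 / m := by
    intro w
    apply perp _ hm (hU' w)
    have := congrFun (congrArg Prod.snd h) w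
    simpa using this
  choose a ha using hr
  choose b hb using hc
  have hm' : 0 ≤ 1 / m := by positivity
  exact ⟨(a, b), norm_E_le hm' (fun w => (ha w).1) (fun w => (hb w).1),
    norm_E_le hm' (fun w => (ha w).2) (fun w => (hb w).2)⟩

theorem norm_mul_E {F : Type} [Field F] [NumberField F] (x y : E F) : ‖x * y‖ ≤ ‖x‖ * ‖y‖ :=
  norm_mul_le x y

/-- **RED** -/
theorem red (h1 : S_RED1) (hA : S_APX) (hC : S_COV) : S_RED := by
  intro F _ _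
  obtain ⟨c, n, hc, hn, H⟩ := h1 F
  obtain ⟨K, hK⟩ := hA F (1 / 2) (by norm_num)
  obtain ⟨K₀, hK₀, hK₀'⟩ := hC F
  have hnR : (0 : ℝ) < n := by exact_mod_cast hn
  obtain ⟨C₁, hC₁⟩ : ∃ C₁ : ℝ, C₁ = 1 + 2 * K * n / c := ⟨_, rfl⟩
  have hC₁0 : 0 < C₁ := by rw [hC₁]; positivity
  refine ⟨C₁ + (1 / c + K₀ * C₁ ^ 2), n, by positivity, hn, ?_⟩
  intro p q r s hdet
  obtain ⟨x₁, x₂, u, v, l, hl, hb1, hb2, hw1, hw2, hmin, hx⟩ := H p q r s hdet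
  have hnF : (n : F) ≠ 0 := by exact_mod_cast hn.ne'
  have hxF : (x₁ : F) * v - x₂ * u = n := by
    have := congrArg (fun z : 𝓞 F => (z : F)) hx
    simpa using this
  -- the vectors
  obtain ⟨U₁, hU₁⟩ : ∃ U₁, U₁ = p * ι F (x₁ : F) + q * ι F (x₂ : F) := ⟨_, rfl⟩
  obtain ⟨U₂, hU₂⟩ : ∃ U₂, U₂ = r * ι F (x₁ : F) + s * ι F (x₂ : F) := ⟨_, rfl⟩
  obtain ⟨W₁, hW₁⟩ : ∃ W₁, W₁ = p * ι F ((u : F) / n) + q * ι F ((v : F) / n) := ⟨_, rfl⟩
  obtain ⟨W₂, hW₂⟩ : ∃ W₂, W₂ = r * ι F ((u : F) / n) + s * ι F ((v : F) / n) := ⟨_, rfl⟩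
  have hUW : U₁ * W₂ - U₂ * W₁ = 1 := by
    have e1 : ι F (x₁ : F) * ι F ((v : F) / n) - ι F (x₂ : F) * ι F ((u : F) / n) = 1 := by
      rw [← map_mul, ← map_mul, ← map_sub, ← map_one (ι F)]
      congr 1
      field_simp
      exact hxF
    rw [hU₁, hU₂, hW₁, hW₂]
    linear_combination hdet * (ι F (x₁ : F) * ι F ((v : F) / n) - ι F (x₂ : F) * ι F ((u : F) / n)) + e1
  rw [← hU₁] at hb1 hw1 hw2
  rw [← hU₂] at hb2 hw1 hw2
  have hcl : 0 < c * l := mul_pos hc hl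
  obtain ⟨α, hα1, hα2⟩ := perpE hUW hcl hw1 hw2
  -- the minimum is bounded
  have hnW₁ : (n : E F) * W₁ = p * ι F (u : F) + q * ι F (v : F) := by
    have e1 : ∀ z : F, (n : E F) * ι F (z / n) = ι F z := by
      intro z
      rw [← map_natCast (ι F) n, ← map_mul, mul_div_cancel₀ _ hnF]
    rw [hW₁, ← e1 (u : F), ← e1 (v : F)]
    ring
  have hnW₂ : (n : E F) * W₂ = r * ι F (u : F) + s * ι F (v : F) := by
    have e1 : ∀ z : F, (n : E F) * ι F (z / n) = ι F z := by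
      intro z
      rw [← map_natCast (ι F) n, ← map_mul, mul_div_cancel₀ _ hnF]
    rw [hW₂, ← e1 (u : F), ← e1 (v : F)]
    ring
  have hnat : ∀ k : ℕ, ‖(k : E F)‖ ≤ k := by
    intro k
    have := norm_nsmul_le (n := k) (a := (1 : E F))
    rw [nsmul_eq_mul, mul_one] at this
    refine this.trans ?_
    have h1 : ‖(1 : E F)‖ ≤ 1 := by
      apply norm_E_le zero_le_one <;> intro w <;> simp
    calc (k : ℝ) * ‖(1 : E F)‖ ≤ k * 1 := by gcongr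
      _ = k := mul_one _
  have hl1 : l ≤ C₁ := by
    obtain ⟨m, κ, hm0, hmK, hmκ⟩ := hK ((n : E F) * α)
    have hne : (m : 𝓞 F) * u - κ * x₁ ≠ 0 ∨ (m : 𝓞 F) * v - κ * x₂ ≠ 0 := by
      by_contra hcon
      push Not at hcon
      obtain ⟨e1, e2⟩ := hcon
      have e3 : (m : 𝓞 F) * n = 0 := by
        rw [← hx]
        linear_combination x₁ * e2 - x₂ * e1
      rcases mul_eq_zero.mp e3 with e4 | e4
      · exact hm0.ne' (by exact_mod_cast e4)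
      · exact hn.ne' (by exact_mod_cast e4)
    have h3 := hmin _ _ hne
    have hmR : (m : ℝ) ≤ K := by exact_mod_cast hmK
    have hb : ∀ (P Q : E F) (U W : E F), ‖U‖ ≤ l → (n : E F) * W = P * ι F (u : F) + Q * ι F (v : F) →
        U = P * ι F (x₁ : F) + Q * ι F (x₂ : F) → ‖W - α * U‖ ≤ 1 / (c * l) →
        ‖P * ι F (((m : 𝓞 F) * u - κ * x₁ : 𝓞 F) : F) + Q * ι F (((m : 𝓞 F) * v - κ * x₂ : 𝓞 F) : F)‖ ≤
          K * n / (c * l) + l / 2 := by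
      intro P Q U W hU hW hU' hα
      have e1 : P * ι F (((m : 𝓞 F) * u - κ * x₁ : 𝓞 F) : F) +
          Q * ι F (((m : 𝓞 F) * v - κ * x₂ : 𝓞 F) : F) =
          (m : E F) * ((n : E F) * (W - α * U)) + ((m : E F) * ((n : E F) * α) - ι F (κ : F)) * U := by
        push_cast
        rw [map_sub, map_sub, map_mul, map_mul, map_mul, map_mul, map_natCast]
        linear_combination (-(m : E F)) * hW + (ι F (κ : F)) * hU'
      rw [e1]
      refine (norm_add_le _ _).trans (add_le_add ?_ ?_)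
      · refine (norm_mul_E _ _).trans ?_
        have e2 : ‖(n : E F) * (W - α * U)‖ ≤ n * (1 / (c * l)) :=
          (norm_mul_E _ _).trans (mul_le_mul (hnat n) hα (norm_nonneg _) hnR.le)
        calc ‖(m : E F)‖ * ‖(n : E F) * (W - α * U)‖ ≤ K * (n * (1 / (c * l))) :=
              mul_le_mul ((hnat m).trans hmR) e2 (norm_nonneg _) (by positivity)
          _ = K * n / (c * l) := by ring
      · refine (norm_mul_E _ _).trans ?_
        calc _ ≤ 1 / 2 * l := mul_le_mul hmκ hU (norm_nonneg _) (by norm_num)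
          _ = l / 2 := by ring
    have h4 := h3.trans (max_le (hb p q U₁ W₁ hb1 hnW₁ hU₁ hα1) (hb r s U₂ W₂ hb2 hnW₂ hU₂ hα2))
    have h5 : l / 2 ≤ K * n / (c * l) := by linarith
    rw [le_div_iff₀ hcl] at h5
    by_contra hcon
    push Not at hcon
    rw [hC₁] at hcon
    have h6 : 1 < l := lt_of_le_of_lt (by have : (0:ℝ) ≤ 2 * K * n / c := by positivity
                                          linarith) hcon
    have h7 : 2 * K * n / c < l - 1 := by linarith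
    rw [div_lt_iff₀ hc] at h7
    nlinarith [mul_pos hc hl, mul_pos hc (sub_pos.mpr h6)]
  -- the second vector
  obtain ⟨κ, hκ⟩ := hK₀' α
  refine ⟨x₁, (u : F) / n - κ * x₁, x₂, (v : F) / n - κ * x₂, l, ?_, ?_, ?_, ?_, ?_, hl, ?_, ?_, ?_, ?_, ?_⟩
  · field_simp
    linear_combination hxF
  · exact ⟨n * x₁, by push_cast; ring⟩
  · exact ⟨u - n * (κ * x₁), by push_cast; field_simp⟩
  · exact ⟨n * x₂, by push_cast; ring⟩
  · exact ⟨v - n * (κ * x₂), by push_cast; field_simp⟩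
  · have : 0 < 1 / c + K₀ * C₁ ^ 2 := by positivity
    linarith
  · rw [← hU₁]; exact hb1
  · rw [← hU₂]; exact hb2
  · have hb : ‖W₁ - α * U₁ + (α - ι F (κ : F)) * U₁‖ ≤ (C₁ + (1 / c + K₀ * C₁ ^ 2)) / l := by
      refine (norm_add_le _ _).trans ?_
      have e1 : ‖(α - ι F (κ : F)) * U₁‖ ≤ K₀ * l :=
        (norm_mul_E _ _).trans (mul_le_mul hκ hb1 (norm_nonneg _) hK₀.le)
      have e2 : 1 / (c * l) + K₀ * l ≤ (C₁ + (1 / c + K₀ * C₁ ^ 2)) / l := by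
        rw [le_div_iff₀ hl]
        have e3 : (1 / (c * l) + K₀ * l) * l = 1 / c + K₀ * l ^ 2 := by field_simp
        rw [e3]
        have e4 : l ^ 2 ≤ C₁ ^ 2 := pow_le_pow_left₀ hl.le hl1 2
        nlinarith
      linarith
    convert hb using 2
    rw [hW₁, hU₁, map_sub, map_sub, map_mul, map_mul]
    ring
  · have hb : ‖W₂ - α * U₂ + (α - ι F (κ : F)) * U₂‖ ≤ (C₁ + (1 / c + K₀ * C₁ ^ 2)) / l := by
      refine (norm_add_le _ _).trans ?_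
      have e1 : ‖(α - ι F (κ : F)) * U₂‖ ≤ K₀ * l :=
        (norm_mul_E _ _).trans (mul_le_mul hκ hb2 (norm_nonneg _) hK₀.le)
      have e2 : 1 / (c * l) + K₀ * l ≤ (C₁ + (1 / c + K₀ * C₁ ^ 2)) / l := by
        rw [le_div_iff₀ hl]
        have e3 : (1 / (c * l) + K₀ * l) * l = 1 / c + K₀ * l ^ 2 := by field_simp
        rw [e3]
        have e4 : l ^ 2 ≤ C₁ ^ 2 := pow_le_pow_left₀ hl.le hl1 2
        nlinarith
      linarith
    convert hb using 2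
    rw [hW₂, hU₂, map_sub, map_sub, map_mul, map_mul]
    ring

end Pool.Agent.L0h50.NR
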