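import Pool.Agent.L0h50.NR.D3

/-!
# NR, modules FP and SUM
-/

set_option autoImplicit false

open NumberField Pool.Agent.L0h45.AR Finset
open scoped Classical

namespace Pool.Agent.L0h50.NR

/-- **FP** -/
theorem fp (h1 : S_DEN) (h2 : S_ALG) : S_FP := by
  intro F _ _
  obtain ⟨n, hn, H⟩ := h1 F
  obtain ⟨M, hM, H'⟩ := h2 F n hn
  refine ⟨M, hM, ?_⟩
  intro A B x y hxy
  obtain ⟨s, ρ, t, u, w, hs, hρ, ht, hnw⟩ := H A B x y hxy
  exact H' A B x y s ρ t u w hxy hs hρ ht hnw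

theorem place_le {F : Type} [Field F] [NumberField F] {x : F} {R : ℝ} (h : Bd x R) (w : InfinitePlace F) :
    w x ≤ R := by
  have h1 := h w.embedding
  rwa [InfinitePlace.norm_embedding_eq] at h1

/-- **SUM** -/
theorem sum (h1 : S_COS) (h2 : S_D3) : S_SUM := by
  intro F _ _
  obtain ⟨M, hM, hcos⟩ := h1 F
  obtain ⟨C, hC, H⟩ := h2 F M hM
  obtain ⟨K, hK1, -, hK⟩ := count F
  obtain ⟨d, hd⟩ : ∃ d, d = Module.finrank ℚ F := ⟨_, rfl⟩
  rw [← hd] at hK
  refine ⟨C * 13 ^ (5 * d) + 5 * K ^ 2, by positivity, ?_⟩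
  intro T S hT hS
  rw [← hd] at H ⊢
  have hT0 : 0 < T := by linarith
  have : Nonempty (Finset (Q4 F)) := ⟨∅⟩
  choose! G hG1 hG2 hG3 using fun (q : 𝓞 F × 𝓞 F) (hq : q ∈ S) => hcos q.1 q.2 (hS q hq).1
  have hIe : ∀ {P Q : Q4 F}, Eqv P Q → Q.I = P.I ∧ Q.J = P.J := by
    rintro P Q ⟨p, q, r, s, h, rfl⟩
    constructor
    · have : (P.sub p q r s).I = (p * s - q * r) ^ 4 * P.I := by
        simp only [Q4.I, Q4.sub]; ring
      rw [this, h, one_pow, one_mul]
    · have : (P.sub p q r s).J = (p * s - q * r) ^ 6 * P.J := by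
        simp only [Q4.J, Q4.sub]; ring
      rw [this, h, one_pow, one_mul]
  have hinv : ∀ q ∈ S, ∀ q' ∈ S, ∀ P ∈ G q, ∀ P' ∈ G q', Eqv P P' → q = q' := by
    intro q hq q' hq' P hP P' hP' he
    obtain ⟨h1, h2⟩ := hIe he
    rw [(hG2 q hq P hP).1, (hG2 q' hq' P' hP').1] at h1
    rw [(hG2 q hq P hP).2.1, (hG2 q' hq' P' hP').2.1] at h2
    have e1 : (q'.1 : F) = q.1 := by
      have : (-48 : F) ≠ 0 := by norm_num
      exact mul_left_cancel₀ this h1
    have e2 : (q'.2 : F) = q.2 := by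
      have : (-1728 : F) ≠ 0 := by norm_num
      exact mul_left_cancel₀ this h2
    apply Prod.ext
    · exact_mod_cast e1.symm
    · exact_mod_cast e2.symm
  have hdisj : ∀ q ∈ S, ∀ q' ∈ S, q ≠ q' → Disjoint (G q) (G q') := by
    intro q hq q' hq' hne
    rw [disjoint_left]
    intro P hP hP'
    exact hne (hinv q hq q' hq' P hP P hP' (Eqv.refl P))
  have hall := H (13 * T) (S.biUnion G) (by linarith) (by
    intro P hP
    rw [mem_biUnion] at hP
    obtain ⟨q, hq, hP⟩ := hP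
    obtain ⟨hI, hJ, hn, hden⟩ := hG2 q hq P hP
    obtain ⟨hD, h3, h4⟩ := hS q hq
    refine ⟨?_, hn, hden, ?_⟩
    · by_contra hcon
      push Not at hcon
      obtain ⟨e1, e2⟩ := hcon
      rw [hI] at e1
      rw [hJ] at e2
      have e3 : (q.1 : F) = 0 := by
        rcases mul_eq_zero.mp e1 with h | h
        · norm_num at h
        · exact h
      have e4 : (q.2 : F) = 0 := by
        rcases mul_eq_zero.mp e2 with h | h
        · norm_num at h
        · exact h
      have e5 : q.1 = 0 := by exact_mod_cast e3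
      have e6 : q.2 = 0 := by exact_mod_cast e4
      apply hD
      rw [e5, e6]
      ring
    · intro w
      have w1 := place_le h3 w
      have w2 := place_le h4 w
      have w1' : 0 ≤ w (q.1 : F) := apply_nonneg w _
      have w2' : 0 ≤ w (q.2 : F) := apply_nonneg w _
      rw [hI, hJ, map_mul, map_mul]
      have e1 : w (-48 : F) = 48 := by
        rw [← InfinitePlace.norm_embedding_eq w, map_neg, norm_neg, map_ofNat]
        exact RCLike.norm_ofNat 48
      have e2 : w (-1728 : F) = 1728 := by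
        rw [← InfinitePlace.norm_embedding_eq w, map_neg, norm_neg, map_ofNat]
        exact RCLike.norm_ofNat 1728
      rw [e1, e2]
      calc (48 * w (q.1 : F)) ^ 3 + (1728 * w (q.2 : F)) ^ 2 ≤
            (48 * T ^ 2) ^ 3 + (1728 * T ^ 3) ^ 2 := by gcongr
        _ = 3096576 * T ^ 6 := by ring
        _ ≤ 4826809 * T ^ 6 := by
            have : 0 ≤ T ^ 6 := by positivity
            linarith
        _ = (13 * T) ^ 6 := by ring)
    (by
      intro P hP P' hP' hne he
      rw [mem_biUnion] at hP hP'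
      obtain ⟨q, hq, hP⟩ := hP
      obtain ⟨q', hq', hP'⟩ := hP'
      have h1 := hinv q hq q' hq' P hP P' hP' he
      subst h1
      exact hG3 q hq P hP P' hP' hne he)
  rw [card_biUnion hdisj] at hall
  push_cast at hall
  have h1 : ∑ q ∈ S, (2 : ℝ) ^ Module.finrank ℤ (crv (q.1 : F) (q.2 : F)).toAffine.Point ≤
      ∑ q ∈ S, (((G q).card : ℝ) + 5) := by
    apply sum_le_sum
    intro q hq
    exact_mod_cast hG1 q hq
  rw [sum_add_distrib, sum_const, nsmul_eq_mul] at h1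
  have h2 : (S.card : ℝ) ≤ K ^ 2 * T ^ (5 * d) := by
    obtain ⟨S1, s1, -, c1⟩ := hK (T ^ 2) (one_le_pow₀ hT)
    obtain ⟨S2, s2, -, c2⟩ := hK (T ^ 3) (one_le_pow₀ hT)
    have hsub : S ⊆ S1 ×ˢ S2 := by
      intro q hq
      obtain ⟨-, h3, h4⟩ := hS q hq
      rw [mem_product, s1, s2]
      exact ⟨h3, h4⟩
    have h3 := card_le_card hsub
    rw [card_product] at h3
    have h4 : (S.card : ℝ) ≤ (S1.card : ℝ) * S2.card := by exact_mod_cast h3
    calc (S.card : ℝ) ≤ (S1.card : ℝ) * S2.card := h4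
      _ ≤ (K * (T ^ 2) ^ d) * (K * (T ^ 3) ^ d) := by gcongr
      _ = K ^ 2 * T ^ (5 * d) := by
          rw [← pow_mul, ← pow_mul]
          ring
  calc _ ≤ _ := h1
    _ ≤ C * (13 * T) ^ (5 * d) + (K ^ 2 * T ^ (5 * d)) * 5 := by gcongr
    _ = (C * 13 ^ (5 * d) + 5 * K ^ 2) * T ^ (5 * d) := by rw [mul_pow]; ring

end Pool.Agent.L0h50.NR
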