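import Pool.Agent.L0h50.NR.Stm

/-!
# Project NR (helper50): further statements
-/

set_option autoImplicit false

open NumberField Polynomial
open scoped Classical

namespace Pool.Agent.L0h50.NR

/-- RKQ: the rank over a multiquadratic extension `K` of `F` is at most the sum of the ranks of the
`[K : F]` quadratic twists over `F`. -/
def S_RKQ : Prop := ∀ (F K : Type) [Field F] [NumberField F] [Field K] [NumberField K] [Algebra F K]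
  [IsGalois F K], (∀ σ : K ≃ₐ[F] K, σ * σ = 1) →
  ∃ d : Fin (Module.finrank F K) → 𝓞 F, (∀ i, d i ≠ 0) ∧ ∀ A B : F, 4 * A ^ 3 + 27 * B ^ 2 ≠ 0 →
    Module.finrank ℤ (crv (algebraMap F K A) (algebraMap F K B)).toAffine.Point ≤
      ∑ i, Module.finrank ℤ (crv ((d i : F) ^ 2 * A) ((d i : F) ^ 3 * B)).toAffine.Point

/-- LOW: the number of the minimal equations in a box. -/
def S_LOW : Prop := ∀ (F : Type) [Field F] [NumberField F], ∃ (c : ℝ) (R₀ : ℝ), 0 < c ∧ ∀ R : ℝ, R₀ ≤ R →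
  ∃ S : Finset (𝓞 F × 𝓞 F), (∀ q ∈ S, 4 * q.1 ^ 3 + 27 * q.2 ^ 2 ≠ 0 ∧ Bd (q.1 : F) (R ^ 2) ∧
    Bd (q.2 : F) (R ^ 3) ∧
    ∀ 𝔭 : Ideal (𝓞 F), 𝔭.IsPrime → 𝔭 ≠ ⊥ → ¬ (q.1 ∈ 𝔭 ^ 4 ∧ q.2 ∈ 𝔭 ^ 6)) ∧
  c * R ^ (5 * Module.finrank ℚ F) ≤ (S.card : ℝ)

end Pool.Agent.L0h50.NR
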