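import Mathlib
import Pool.Agent.L0h45.AR.Stm

/-!
# Project NR (helper50): over every number field the average of `2 ^ rank` over all elliptic curves is bounded

Statements of the modules. `Q4`, `Q4.I`, `Q4.J`, `Q4.sub` (binary quartic forms over a commutative ring,
invariants, substitution) are in `Pool/Agent/L0h45/AR/Stm.lean`.
-/

set_option autoImplicit false

open NumberField Polynomial
open scoped Classical

namespace Pool.Agent.L0h50.NR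

open Pool.Agent.L0h45.AR (Q4)

/-- change of rings -/
def mp {R S : Type} [CommRing R] [CommRing S] (φ : R →+* S) (G : Q4 R) : Q4 S :=
  ⟨φ G.a, φ G.b, φ G.c, φ G.d, φ G.e⟩

/-! ### Quartic forms and the curve `y² = x³ + A x + B` over a field -/

section field

variable {F : Type} [Field F]

/-- the cubic polynomial -/
noncomputable def cub (A B : F) : F[X] := X ^ 3 + C A * X + C B

/-- the algebra `F[θ]` -/
abbrev Alg (A B : F) : Type := AdjoinRoot (cub A B)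

/-- `θ` -/
noncomputable abbrev th (A B : F) : Alg A B := AdjoinRoot.root (cub A B)

/-- the embedding of `F` -/
noncomputable abbrev io (A B : F) : F →+* Alg A B := AdjoinRoot.of (cub A B)

/-- the number `z(G) = (4 a φ + 3 b² - 8 a c) / 3` with `φ = - 12 θ` -/
noncomputable def zz (A B : F) (G : Q4 F) : Alg A B :=
  io A B (G.b ^ 2 - 8 / 3 * (G.a * G.c)) - io A B (16 * G.a) * th A B

/-- the curve -/
def crv (A B : F) : WeierstrassCurve F := ⟨0, 0, 0, A, B⟩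

/-- equivalence under `SL₂(F)` -/
def Eqv (G H : Q4 F) : Prop := ∃ p q r s : F, p * s - q * r = 1 ∧ H = G.sub p q r s

/-- no equivalent form has the leading coefficient `0` -/
def NoRoot (G : Q4 F) : Prop := ∀ H : Q4 F, Eqv G H → H.a ≠ 0

end field

/-- EQV: equivalent forms have `z` in the same class modulo squares (compare `L0h95/AR/EQV.lean`). -/
def S_EQV : Prop := ∀ (F : Type) [Field F] [CharZero F] (A B : F) (G H : Q4 F), G.I = - 48 * A →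
  G.J = - 1728 * B → Eqv G H → IsSquare (zz A B G * zz A B H)

/-- HALF: if `x(P) - θ` is a square, then `P` is a double (compare `L0h90/AR/Half.lean`). -/
def S_HALF : Prop := ∀ (F : Type) [Field F] [CharZero F] (A B : F), 4 * A ^ 3 + 27 * B ^ 2 ≠ 0 →
  ∀ (x y : F) (h : (crv A B).toAffine.Nonsingular x y), IsSquare (io A B x - th A B) →
  ∃ Q : (crv A B).toAffine.Point, Q + Q = .some x y h

/-- PAIR: if `(x(P) - θ) (x(P') - θ)` is a square, and `P`, `P'` are not of order `2`, then `P - P'` is a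
double (compare `L0h90/AR/Pair.lean`). -/
def S_PAIR : Prop := ∀ (F : Type) [Field F] [CharZero F] (A B : F), 4 * A ^ 3 + 27 * B ^ 2 ≠ 0 →
  ∀ (x y x' y' : F) (h : (crv A B).toAffine.Nonsingular x y)
  (h' : (crv A B).toAffine.Nonsingular x' y'), y ≠ 0 → y' ≠ 0 →
  IsSquare ((io A B x - th A B) * (io A B x' - th A B)) →
  ∃ Q : (crv A B).toAffine.Point, Q + Q + .some x' y' h' = .some x y h

/-! ### Number fields -/

section nf

variable {F : Type} [Field F] [NumberField F]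

/-- `M x` is an integer -/
def Den (M : ℕ) (x : F) : Prop := ∃ z : 𝓞 F, (z : F) = M * x

/-- the coefficients of `M G` are integers -/
def DenQ (M : ℕ) (G : Q4 F) : Prop := Den M G.a ∧ Den M G.b ∧ Den M G.c ∧ Den M G.d ∧ Den M G.e

/-- all conjugates of `x` are at most `R` in absolute value -/
def Bd (x : F) (R : ℝ) : Prop := ∀ σ : F →+* ℂ, ‖σ x‖ ≤ R

variable (F)

/-- the space `ℝ ^ r₁ × ℂ ^ r₂` -/
abbrev E : Type := mixedEmbedding.mixedSpace F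

/-- the embedding of `F` in this space -/
noncomputable abbrev ι : F →+* E F := mixedEmbedding F

end nf

/-- DEN: the denominators of a point, up to the class group. -/
def S_DEN : Prop := ∀ (F : Type) [Field F] [NumberField F], ∃ n : ℕ, 0 < n ∧
  ∀ (A B : 𝓞 F) (x y : F), y ^ 2 = x ^ 3 + A * x + B → ∃ s ρ t u w : 𝓞 F, s ≠ 0 ∧
    (ρ : F) = x * s ^ 2 ∧ (t : F) = y * s ^ 3 ∧ (n : 𝓞 F) = ρ * u + s ^ 6 * w

/-- ALG: the quartic form of a point with given denominators. -/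
def S_ALG : Prop := ∀ (F : Type) [Field F] [NumberField F] (n : ℕ), 0 < n → ∃ M : ℕ, 0 < M ∧
  ∀ (A B : 𝓞 F) (x y : F) (s ρ t u w : 𝓞 F), y ^ 2 = x ^ 3 + A * x + B → s ≠ 0 →
    (ρ : F) = x * s ^ 2 → (t : F) = y * s ^ 3 → (n : 𝓞 F) = ρ * u + s ^ 6 * w →
  ∃ (G : Q4 F) (τ : F), G.I = - 48 * A ∧ G.J = - 1728 * B ∧ τ ≠ 0 ∧ DenQ M G ∧
    zz (A : F) (B : F) G = io (A : F) (B : F) (τ ^ 2) * (io (A : F) (B : F) x - th (A : F) (B : F))

/-- FP: the quartic form of a point has bounded denominators. -/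
def S_FP : Prop := ∀ (F : Type) [Field F] [NumberField F], ∃ M : ℕ, 0 < M ∧
  ∀ (A B : 𝓞 F) (x y : F), y ^ 2 = x ^ 3 + A * x + B →
  ∃ (G : Q4 F) (τ : F), G.I = - 48 * A ∧ G.J = - 1728 * B ∧ τ ≠ 0 ∧ DenQ M G ∧
    zz (A : F) (B : F) G = io (A : F) (B : F) (τ ^ 2) * (io (A : F) (B : F) x - th (A : F) (B : F))

/-- COS: many inequivalent quartic forms with bounded denominators (compare `L0h45/AR/Cos.lean`). -/
def S_COS : Prop := ∀ (F : Type) [Field F] [NumberField F], ∃ M : ℕ, 0 < M ∧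
  ∀ A B : 𝓞 F, 4 * A ^ 3 + 27 * B ^ 2 ≠ 0 → ∃ S : Finset (Q4 F),
  2 ^ Module.finrank ℤ (crv (A : F) (B : F)).toAffine.Point ≤ S.card + 5 ∧
  (∀ G ∈ S, G.I = - 48 * A ∧ G.J = - 1728 * B ∧ NoRoot G ∧ DenQ M G) ∧
  ∀ G ∈ S, ∀ H ∈ S, G ≠ H → ¬ Eqv G H

/-- D1C: complex forms are equivalent to forms with coefficients bounded in terms of the invariants
(compare `L0h45/AR/D1.lean`, the real case). -/
def S_D1C : Prop := ∃ K : ℝ, 0 < K ∧ ∀ G : Q4 ℂ, 0 < ‖G.I‖ ^ 3 + ‖G.J‖ ^ 2 →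
  ∃ p q r s : ℂ, p * s - q * r = 1 ∧
    (max ‖(G.sub p q r s).a‖ (max ‖(G.sub p q r s).b‖ (max ‖(G.sub p q r s).c‖
      (max ‖(G.sub p q r s).d‖ ‖(G.sub p q r s).e‖)))) ^ 6 ≤ K * (‖G.I‖ ^ 3 + ‖G.J‖ ^ 2)

/-- D1E: the same at all infinite places. -/
def S_D1E : Prop := ∀ (F : Type) [Field F] [NumberField F], ∃ K : ℝ, 0 < K ∧
  ∀ (T : ℝ) (G : Q4 F), 0 < T → (G.I ≠ 0 ∨ G.J ≠ 0) →
  (∀ w : InfinitePlace F, w G.I ^ 3 + w G.J ^ 2 ≤ T ^ 6) →
  ∃ p q r s : E F, p * s - q * r = 1 ∧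
    ‖((mp (ι F) G).sub p q r s).a‖ ≤ K * T ∧ ‖((mp (ι F) G).sub p q r s).b‖ ≤ K * T ∧
    ‖((mp (ι F) G).sub p q r s).c‖ ≤ K * T ∧ ‖((mp (ι F) G).sub p q r s).d‖ ≤ K * T ∧
    ‖((mp (ι F) G).sub p q r s).e‖ ≤ K * T

/-- APX: approximation in `E F` by integers of `F`, after multiplication by a bounded natural number. -/
def S_APX : Prop := ∀ (F : Type) [Field F] [NumberField F] (ε : ℝ), 0 < ε → ∃ K : ℕ,
  ∀ α : E F, ∃ (m : ℕ) (κ : 𝓞 F), 0 < m ∧ m ≤ K ∧ ‖(m : E F) * α - ι F (κ : F)‖ ≤ ε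

/-- COV: the covering radius of the integers. -/
def S_COV : Prop := ∀ (F : Type) [Field F] [NumberField F], ∃ K : ℝ, 0 < K ∧
  ∀ α : E F, ∃ κ : 𝓞 F, ‖α - ι F (κ : F)‖ ≤ K

/-- RED1: a minimal vector: it is balanced, and a fixed number lies in the ideal of the coordinates. Here
`g = (p, q; r, s)` and the vector is `g (x₁, x₂)`; the two components at a place have the maximum
at least `c l`. -/
def S_RED1 : Prop := ∀ (F : Type) [Field F] [NumberField F], ∃ (c : ℝ) (n : ℕ), 0 < c ∧ 0 < n ∧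
  ∀ p q r s : E F, p * s - q * r = 1 → ∃ (x₁ x₂ u v : 𝓞 F) (l : ℝ), 0 < l ∧
    ‖p * ι F (x₁ : F) + q * ι F (x₂ : F)‖ ≤ l ∧ ‖r * ι F (x₁ : F) + s * ι F (x₂ : F)‖ ≤ l ∧
    (∀ w, c * l ≤ max ‖(p * ι F (x₁ : F) + q * ι F (x₂ : F)).1 w‖
      ‖(r * ι F (x₁ : F) + s * ι F (x₂ : F)).1 w‖) ∧
    (∀ w, c * l ≤ max ‖(p * ι F (x₁ : F) + q * ι F (x₂ : F)).2 w‖
      ‖(r * ι F (x₁ : F) + s * ι F (x₂ : F)).2 w‖) ∧
    (∀ y₁ y₂ : 𝓞 F, (y₁ ≠ 0 ∨ y₂ ≠ 0) → l ≤ max ‖p * ι F (y₁ : F) + q * ι F (y₂ : F)‖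
      ‖r * ι F (y₁ : F) + s * ι F (y₂ : F)‖) ∧
    x₁ * v - x₂ * u = n

/-- RED: reduction of the lattices `g (𝓞 F)²`, up to bounded denominators. -/
def S_RED : Prop := ∀ (F : Type) [Field F] [NumberField F], ∃ (K : ℝ) (n : ℕ), 0 < K ∧ 0 < n ∧
  ∀ p q r s : E F, p * s - q * r = 1 → ∃ (p' q' r' s' : F) (l : ℝ), p' * s' - q' * r' = 1 ∧
    Den n p' ∧ Den n q' ∧ Den n r' ∧ Den n s' ∧ 0 < l ∧ l ≤ K ∧
    ‖p * ι F p' + q * ι F r'‖ ≤ l ∧ ‖r * ι F p' + s * ι F r'‖ ≤ l ∧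
    ‖p * ι F q' + q * ι F s'‖ ≤ K / l ∧ ‖r * ι F q' + s * ι F s'‖ ≤ K / l

/-- D3: the number of classes of forms with bounded denominators and bounded invariants without a root. -/
def S_D3 : Prop := ∀ (F : Type) [Field F] [NumberField F] (M : ℕ), 0 < M → ∃ K : ℝ, 0 < K ∧
  ∀ (T : ℝ) (S : Finset (Q4 F)), 1 ≤ T →
  (∀ G ∈ S, (G.I ≠ 0 ∨ G.J ≠ 0) ∧ NoRoot G ∧ DenQ M G ∧
    ∀ w : InfinitePlace F, w G.I ^ 3 + w G.J ^ 2 ≤ T ^ 6) →
  (∀ G ∈ S, ∀ H ∈ S, G ≠ H → ¬ Eqv G H) → (S.card : ℝ) ≤ K * T ^ (5 * Module.finrank ℚ F)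

/-- SUM: the sum over the curves up to a given height. -/
def S_SUM : Prop := ∀ (F : Type) [Field F] [NumberField F], ∃ K : ℝ, 0 < K ∧
  ∀ (T : ℝ) (S : Finset (𝓞 F × 𝓞 F)), 1 ≤ T →
  (∀ q ∈ S, 4 * q.1 ^ 3 + 27 * q.2 ^ 2 ≠ 0 ∧ Bd (q.1 : F) (T ^ 2) ∧ Bd (q.2 : F) (T ^ 3)) →
  ∑ q ∈ S, (2 : ℝ) ^ Module.finrank ℤ (crv (q.1 : F) (q.2 : F)).toAffine.Point ≤
    K * T ^ (5 * Module.finrank ℚ F)

end Pool.Agent.L0h50.NR
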