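import Pool.Agent.L0h50.NR.Stm
import Pool.Agent.L0h45.AR.D3

/-!
# NR: boxes and reduction of forms
-/

set_option autoImplicit false

open NumberField Pool.Agent.L0h45.AR
open scoped Classical

namespace Pool.Agent.L0h50.NR

/-! ### Equivalence -/

section eqv

variable {F : Type} [Field F]

theorem Eqv.refl (G : Q4 F) : Eqv G G := ⟨1, 0, 0, 1, by ring, G.sub_one.symm⟩

theorem Eqv.symm {G H : Q4 F} (h : Eqv G H) : Eqv H G := by
  obtain ⟨p, q, r, s, h1, rfl⟩ := h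
  refine ⟨s, -q, -r, p, by linear_combination h1, ?_⟩
  rw [Q4.sub_sub]
  have e1 : p * s + q * -r = 1 := by linear_combination h1
  have e2 : p * -q + q * p = 0 := by ring
  have e3 : r * s + s * -r = 0 := by ring
  have e4 : r * -q + s * p = 1 := by linear_combination h1
  rw [e1, e2, e3, e4, Q4.sub_one]

theorem Eqv.trans {G H J : Q4 F} (h : Eqv G H) (h' : Eqv H J) : Eqv G J := by
  obtain ⟨p, q, r, s, h1, rfl⟩ := h
  obtain ⟨p', q', r', s', h1', rfl⟩ := h'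
  refine ⟨_, _, _, _, ?_, Q4.sub_sub G p q r s p' q' r' s'⟩
  linear_combination h1' * (p * s - q * r) + h1

theorem Eqv.uni (G : Q4 F) (k : F) : Eqv G (G.sub 1 k 0 1) := ⟨1, k, 0, 1, by ring, rfl⟩

end eqv

theorem mp_sub {R S : Type} [CommRing R] [CommRing S] (φ : R →+* S) (G : Q4 R) (p q r s : R) :
    mp φ (G.sub p q r s) = (mp φ G).sub (φ p) (φ q) (φ r) (φ s) := by
  ext
  · simp only [Q4.sub, mp, map_add, map_mul, map_pow, map_ofNat]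
  · simp only [Q4.sub, mp, map_add, map_mul, map_pow, map_ofNat]
  · simp only [Q4.sub, mp, map_add, map_mul, map_pow, map_ofNat]
  · simp only [Q4.sub, mp, map_add, map_mul, map_pow, map_ofNat]
  · simp only [Q4.sub, mp, map_add, map_mul, map_pow, map_ofNat]

/-! ### Denominators -/

section den

variable {F : Type} [Field F] [NumberField F]

theorem DenQ.sub {M n : ℕ} {G : Q4 F} (h : DenQ M G) {p q r s : F} (hp : Den n p) (hq : Den n q)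
    (hr : Den n r) (hs : Den n s) : DenQ (M * n ^ 4) (G.sub p q r s) := by
  obtain ⟨⟨a, ha⟩, ⟨b, hb⟩, ⟨c, hc⟩, ⟨d, hd⟩, ⟨e, he⟩⟩ := h
  obtain ⟨p', hp⟩ := hp
  obtain ⟨q', hq⟩ := hq
  obtain ⟨r', hr⟩ := hr
  obtain ⟨s', hs⟩ := hs
  obtain ⟨H, hH⟩ : ∃ H : Q4 (𝓞 F), H = (⟨a, b, c, d, e⟩ : Q4 (𝓞 F)).sub p' q' r' s' := ⟨_, rfl⟩
  have key : mp (algebraMap (𝓞 F) F) H = (⟨M * G.a, M * G.b, M * G.c, M * G.d, M * G.e⟩ : Q4 F).sub
      (n * p) (n * q) (n * r) (n * s) := by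
    rw [hH, mp_sub]
    have e0 : mp (algebraMap (𝓞 F) F) (⟨a, b, c, d, e⟩ : Q4 (𝓞 F)) =
        ⟨M * G.a, M * G.b, M * G.c, M * G.d, M * G.e⟩ := Q4.ext ha hb hc hd he
    have e1 : algebraMap (𝓞 F) F p' = n * p := hp
    have e2 : algebraMap (𝓞 F) F q' = n * q := hq
    have e3 : algebraMap (𝓞 F) F r' = n * r := hr
    have e4 : algebraMap (𝓞 F) F s' = n * s := hs
    rw [e0, e1, e2, e3, e4]
  refine ⟨⟨H.a, ?_⟩, ⟨H.b, ?_⟩, ⟨H.c, ?_⟩, ⟨H.d, ?_⟩, ⟨H.e, ?_⟩⟩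
  · have := congrArg Q4.a key
    simp only [mp, Q4.sub] at this
    refine (show (H.a : F) = algebraMap (𝓞 F) F H.a from rfl).trans (this.trans ?_)
    simp only [Q4.sub]; push_cast; ring
  · have := congrArg Q4.b key
    simp only [mp, Q4.sub] at this
    refine (show (H.b : F) = algebraMap (𝓞 F) F H.b from rfl).trans (this.trans ?_)
    simp only [Q4.sub]; push_cast; ring
  · have := congrArg Q4.c key
    simp only [mp, Q4.sub] at this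
    refine (show (H.c : F) = algebraMap (𝓞 F) F H.c from rfl).trans (this.trans ?_)
    simp only [Q4.sub]; push_cast; ring
  · have := congrArg Q4.d key
    simp only [mp, Q4.sub] at this
    refine (show (H.d : F) = algebraMap (𝓞 F) F H.d from rfl).trans (this.trans ?_)
    simp only [Q4.sub]; push_cast; ring
  · have := congrArg Q4.e key
    simp only [mp, Q4.sub] at this
    refine (show (H.e : F) = algebraMap (𝓞 F) F H.e from rfl).trans (this.trans ?_)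
    simp only [Q4.sub]; push_cast; ring

theorem Bd_of_norm {x : F} {R : ℝ} (h : ‖ι F x‖ ≤ R) : Bd x R := by
  intro σ
  have h1 : ‖σ x‖ = InfinitePlace.mk σ x := (InfinitePlace.apply σ x).symm
  rw [h1]
  rw [mixedEmbedding.norm_eq_sup'_normAtPlace] at h
  have h2 := (Finset.sup'_le_iff _ _).mp h (InfinitePlace.mk σ) (Finset.mem_univ _)
  rwa [mixedEmbedding.normAtPlace_apply] at h2

/-- the box number `j` -/
structure BoxE (L : ℝ) (j : ℕ) (G : Q4 F) : Prop where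
  a : Bd G.a (L / 16 ^ j)
  b : Bd G.b (L / 4 ^ j)
  c : Bd G.c L
  d : Bd G.d (L * 4 ^ j)
  e : Bd G.e (L * 16 ^ j)

theorem BoxE.uni {L : ℝ} {j : ℕ} {G : Q4 F} (h : BoxE L j G) {k : F} (hk : Bd k (4 ^ j)) :
    BoxE (10 * L) j (G.sub 1 k 0 1) := by
  obtain ⟨ha, hb, hc, hd, he⟩ := h
  obtain ⟨w, hw⟩ : ∃ w : ℝ, w = 4 ^ j := ⟨_, rfl⟩
  have hw16 : (16 : ℝ) ^ j = w ^ 2 := by
    rw [hw, ← pow_mul, mul_comm, pow_mul]
    norm_num
  have hw0 : 0 < w := by rw [hw]; positivity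
  rw [← hw] at hb hd hk
  rw [hw16] at ha he
  rw [Q4.sub_uni]
  have hL : 0 ≤ L := by
    obtain ⟨σ⟩ : Nonempty (F →+* ℂ) := inferInstance
    exact (norm_nonneg _).trans (hc σ)
  have key : ∀ σ : F →+* ℂ, ‖σ G.a‖ ≤ L / w ^ 2 ∧ ‖σ G.b‖ ≤ L / w ∧ ‖σ G.c‖ ≤ L ∧ ‖σ G.d‖ ≤ L * w ∧
      ‖σ G.e‖ ≤ L * w ^ 2 ∧ ‖σ k‖ ≤ w := fun σ => ⟨ha σ, hb σ, hc σ, hd σ, he σ, hk σ⟩
  constructor
  · intro σ
    obtain ⟨h1, -⟩ := key σ
    rw [hw16]
    refine h1.trans ?_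
    have : 0 ≤ L / w ^ 2 := by positivity
    have e1 : 10 * L / w ^ 2 = 10 * (L / w ^ 2) := by ring
    rw [e1]
    linarith
  · intro σ
    obtain ⟨h1, h2, h3, h4, h5, h6⟩ := key σ
    rw [← hw]
    simp only [map_add, map_mul, map_pow, map_ofNat]
    calc ‖σ G.b + 4 * σ G.a * σ k‖ ≤ ‖σ G.b‖ + 4 * ‖σ G.a‖ * ‖σ k‖ := by
          refine (norm_add_le _ _).trans (le_of_eq ?_)
          simp
      _ ≤ L / w + 4 * (L / w ^ 2) * w := by gcongr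
      _ = 5 * (L / w) := by field_simp; ring
      _ ≤ 10 * L / w := by
          have : 0 ≤ L / w := by positivity
          have e1 : 10 * L / w = 10 * (L / w) := by ring
          rw [e1]
          linarith
  · intro σ
    obtain ⟨h1, h2, h3, h4, h5, h6⟩ := key σ
    simp only [map_add, map_mul, map_pow, map_ofNat]
    calc ‖σ G.c + 3 * σ G.b * σ k + 6 * σ G.a * σ k ^ 2‖ ≤
          ‖σ G.c‖ + 3 * ‖σ G.b‖ * ‖σ k‖ + 6 * ‖σ G.a‖ * ‖σ k‖ ^ 2 := by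
          refine (norm_add₃_le).trans (le_of_eq ?_)
          simp
      _ ≤ L + 3 * (L / w) * w + 6 * (L / w ^ 2) * w ^ 2 := by gcongr
      _ = 10 * L := by field_simp; ring
  · intro σ
    obtain ⟨h1, h2, h3, h4, h5, h6⟩ := key σ
    rw [← hw]
    simp only [map_add, map_mul, map_pow, map_ofNat]
    calc ‖σ G.d + 2 * σ G.c * σ k + 3 * σ G.b * σ k ^ 2 + 4 * σ G.a * σ k ^ 3‖ ≤
          ‖σ G.d‖ + 2 * ‖σ G.c‖ * ‖σ k‖ + 3 * ‖σ G.b‖ * ‖σ k‖ ^ 2 + 4 * ‖σ G.a‖ * ‖σ k‖ ^ 3 := by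
          refine (norm_add_le _ _).trans (add_le_add ((norm_add₃_le).trans (le_of_eq ?_)) (le_of_eq ?_))
          · simp
          · simp
      _ ≤ L * w + 2 * L * w + 3 * (L / w) * w ^ 2 + 4 * (L / w ^ 2) * w ^ 3 := by gcongr
      _ = 10 * L * w := by field_simp; ring
  · intro σ
    obtain ⟨h1, h2, h3, h4, h5, h6⟩ := key σ
    rw [hw16]
    simp only [map_add, map_mul, map_pow, map_ofNat]
    calc ‖σ G.e + σ G.d * σ k + σ G.c * σ k ^ 2 + σ G.b * σ k ^ 3 + σ G.a * σ k ^ 4‖ ≤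
          ‖σ G.e‖ + ‖σ G.d‖ * ‖σ k‖ + ‖σ G.c‖ * ‖σ k‖ ^ 2 + ‖σ G.b‖ * ‖σ k‖ ^ 3 +
            ‖σ G.a‖ * ‖σ k‖ ^ 4 := by
          refine (norm_add_le _ _).trans (add_le_add ((norm_add_le _ _).trans
            (add_le_add ((norm_add₃_le).trans (le_of_eq ?_)) (le_of_eq ?_))) (le_of_eq ?_))
          · simp
          · simp
          · simp
      _ ≤ L * w ^ 2 + L * w * w + L * w ^ 2 + (L / w) * w ^ 3 + (L / w ^ 2) * w ^ 4 := by gcongr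
      _ = 5 * (L * w ^ 2) := by field_simp; ring
      _ ≤ 10 * L * w ^ 2 := by
          have : 0 ≤ L * w ^ 2 := by positivity
          linarith

end den

/-! ### Substitutions with small entries -/

section small

variable {F : Type} [Field F] [NumberField F]

theorem nE (x y : E F) : ‖x * y‖ ≤ ‖x‖ * ‖y‖ := norm_mul_le x y

theorem nE_of {x : E F} {a : ℝ} (y : E F) {b : ℝ} (hx : ‖x‖ ≤ a) (hy : ‖y‖ ≤ b) : ‖x * y‖ ≤ a * b :=
  (norm_mul_le x y).trans (mul_le_mul hx hy (norm_nonneg _) ((norm_nonneg _).trans hx))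

theorem nE_pow {x : E F} {a : ℝ} (hx : ‖x‖ ≤ a) (k : ℕ) (hk : 0 < k) : ‖x ^ k‖ ≤ a ^ k :=
  (norm_pow_le' x hk).trans (pow_le_pow_left₀ (norm_nonneg _) hx k)

theorem nE_nat {x : E F} {a : ℝ} (k : ℕ) (hx : ‖x‖ ≤ a) : ‖(k : E F) * x‖ ≤ k * a := by
  rw [← nsmul_eq_mul]
  exact (norm_nsmul_le (n := k) (a := x)).trans (mul_le_mul_of_nonneg_left hx (Nat.cast_nonneg k))

theorem small_sub {H : Q4 (E F)} {N l m : ℝ} (hN : ‖H.a‖ ≤ N ∧ ‖H.b‖ ≤ N ∧ ‖H.c‖ ≤ N ∧ ‖H.d‖ ≤ N ∧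
    ‖H.e‖ ≤ N) {P Q R S : E F} (hP : ‖P‖ ≤ l) (hR : ‖R‖ ≤ l) (hQ : ‖Q‖ ≤ m) (hS : ‖S‖ ≤ m) :
    ‖(H.sub P Q R S).a‖ ≤ 5 * N * l ^ 4 ∧ ‖(H.sub P Q R S).b‖ ≤ 20 * N * (l ^ 3 * m) ∧
    ‖(H.sub P Q R S).c‖ ≤ 30 * N * (l ^ 2 * m ^ 2) ∧ ‖(H.sub P Q R S).d‖ ≤ 20 * N * (l * m ^ 3) ∧
    ‖(H.sub P Q R S).e‖ ≤ 5 * N * m ^ 4 := by
  obtain ⟨ha, hb, hc, hd, he⟩ := hN
  have l2 := nE_pow hP 2 (by norm_num)
  have l3 := nE_pow hP 3 (by norm_num)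
  have l4 := nE_pow hP 4 (by norm_num)
  have r2 := nE_pow hR 2 (by norm_num)
  have r3 := nE_pow hR 3 (by norm_num)
  have r4 := nE_pow hR 4 (by norm_num)
  have q2 := nE_pow hQ 2 (by norm_num)
  have q3 := nE_pow hQ 3 (by norm_num)
  have q4 := nE_pow hQ 4 (by norm_num)
  have s2 := nE_pow hS 2 (by norm_num)
  have s3 := nE_pow hS 3 (by norm_num)
  have s4 := nE_pow hS 4 (by norm_num)
  have add : ∀ {x y : E F} {a b : ℝ}, ‖x‖ ≤ a → ‖y‖ ≤ b → ‖x + y‖ ≤ a + b :=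
    fun hx hy => (norm_add_le _ _).trans (add_le_add hx hy)
  refine ⟨?_, ?_, ?_, ?_, ?_⟩
  · have e1 : (H.sub P Q R S).a = H.a * P ^ 4 + H.b * (P ^ 3 * R) + H.c * (P ^ 2 * R ^ 2) +
        H.d * (P * R ^ 3) + H.e * R ^ 4 := by
      simp only [Q4.sub]; ring
    rw [e1]
    refine (add (add (add (add (nE_of _ ha l4) (nE_of _ hb (nE_of _ l3 hR)))
      (nE_of _ hc (nE_of _ l2 r2))) (nE_of _ hd (nE_of _ hP r3))) (nE_of _ he r4)).trans (le_of_eq ?_)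
    ring
  · have e1 : (H.sub P Q R S).b = ((4 : ℕ) : E F) * (H.a * (P ^ 3 * Q)) + H.b * (P ^ 3 * S) +
        ((3 : ℕ) : E F) * (H.b * (P ^ 2 * (Q * R))) + ((2 : ℕ) : E F) * (H.c * (P * (Q * R ^ 2))) +
        ((2 : ℕ) : E F) * (H.c * (P ^ 2 * (R * S))) + H.d * (Q * R ^ 3) +
        ((3 : ℕ) : E F) * (H.d * (P * (R ^ 2 * S))) + ((4 : ℕ) : E F) * (H.e * (R ^ 3 * S)) := by
      simp only [Q4.sub]; push_cast; ring
    rw [e1]
    refine (add (add (add (add (add (add (add (nE_nat 4 (nE_of _ ha (nE_of _ l3 hQ)))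
      (nE_of _ hb (nE_of _ l3 hS))) (nE_nat 3 (nE_of _ hb (nE_of _ l2 (nE_of _ hQ hR)))))
      (nE_nat 2 (nE_of _ hc (nE_of _ hP (nE_of _ hQ r2)))))
      (nE_nat 2 (nE_of _ hc (nE_of _ l2 (nE_of _ hR hS))))) (nE_of _ hd (nE_of _ hQ r3)))
      (nE_nat 3 (nE_of _ hd (nE_of _ hP (nE_of _ r2 hS)))))
      (nE_nat 4 (nE_of _ he (nE_of _ r3 hS)))).trans (le_of_eq ?_)
    push_cast
    ring
  · have e1 : (H.sub P Q R S).c = ((6 : ℕ) : E F) * (H.a * (P ^ 2 * Q ^ 2)) +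
        ((3 : ℕ) : E F) * (H.b * (P ^ 2 * (Q * S))) + ((3 : ℕ) : E F) * (H.b * (P * (Q ^ 2 * R))) +
        H.c * (P ^ 2 * S ^ 2) + ((4 : ℕ) : E F) * (H.c * (P * (Q * (R * S)))) + H.c * (Q ^ 2 * R ^ 2) +
        ((3 : ℕ) : E F) * (H.d * (P * (R * S ^ 2))) + ((3 : ℕ) : E F) * (H.d * (Q * (R ^ 2 * S))) +
        ((6 : ℕ) : E F) * (H.e * (R ^ 2 * S ^ 2)) := by
      simp only [Q4.sub]; push_cast; ring
    rw [e1]
    refine (add (add (add (add (add (add (add (add (nE_nat 6 (nE_of _ ha (nE_of _ l2 q2)))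
      (nE_nat 3 (nE_of _ hb (nE_of _ l2 (nE_of _ hQ hS)))))
      (nE_nat 3 (nE_of _ hb (nE_of _ hP (nE_of _ q2 hR))))) (nE_of _ hc (nE_of _ l2 s2)))
      (nE_nat 4 (nE_of _ hc (nE_of _ hP (nE_of _ hQ (nE_of _ hR hS)))))) (nE_of _ hc (nE_of _ q2 r2)))
      (nE_nat 3 (nE_of _ hd (nE_of _ hP (nE_of _ hR s2)))))
      (nE_nat 3 (nE_of _ hd (nE_of _ hQ (nE_of _ r2 hS)))))
      (nE_nat 6 (nE_of _ he (nE_of _ r2 s2)))).trans (le_of_eq ?_)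
    push_cast
    ring
  · have e1 : (H.sub P Q R S).d = ((4 : ℕ) : E F) * (H.a * (P * Q ^ 3)) + H.b * (Q ^ 3 * R) +
        ((3 : ℕ) : E F) * (H.b * (P * (Q ^ 2 * S))) + ((2 : ℕ) : E F) * (H.c * (P * (Q * S ^ 2))) +
        ((2 : ℕ) : E F) * (H.c * (Q ^ 2 * (R * S))) + H.d * (P * S ^ 3) +
        ((3 : ℕ) : E F) * (H.d * (Q * (R * S ^ 2))) + ((4 : ℕ) : E F) * (H.e * (R * S ^ 3)) := by
      simp only [Q4.sub]; push_cast; ring
    rw [e1]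
    refine (add (add (add (add (add (add (add (nE_nat 4 (nE_of _ ha (nE_of _ hP q3)))
      (nE_of _ hb (nE_of _ q3 hR))) (nE_nat 3 (nE_of _ hb (nE_of _ hP (nE_of _ q2 hS)))))
      (nE_nat 2 (nE_of _ hc (nE_of _ hP (nE_of _ hQ s2)))))
      (nE_nat 2 (nE_of _ hc (nE_of _ q2 (nE_of _ hR hS))))) (nE_of _ hd (nE_of _ hP s3)))
      (nE_nat 3 (nE_of _ hd (nE_of _ hQ (nE_of _ hR s2)))))
      (nE_nat 4 (nE_of _ he (nE_of _ hR s3)))).trans (le_of_eq ?_)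
    push_cast
    ring
  · have e1 : (H.sub P Q R S).e = H.a * Q ^ 4 + H.b * (Q ^ 3 * S) + H.c * (Q ^ 2 * S ^ 2) +
        H.d * (Q * S ^ 3) + H.e * S ^ 4 := by
      simp only [Q4.sub]; ring
    rw [e1]
    refine (add (add (add (add (nE_of _ ha q4) (nE_of _ hb (nE_of _ q3 hS)))
      (nE_of _ hc (nE_of _ q2 s2))) (nE_of _ hd (nE_of _ hQ s3))) (nE_of _ he s4)).trans (le_of_eq ?_)
    ring

end small

/-! ### Reduction -/

/-- every form is equivalent to one in a box -/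
theorem reduce (h1 : S_D1E) (h2 : S_RED) (F : Type) [Field F] [NumberField F] :
    ∃ (K : ℝ) (n : ℕ), 0 < K ∧ 0 < n ∧ ∀ (M : ℕ) (T : ℝ) (G : Q4 F), 0 < T → (G.I ≠ 0 ∨ G.J ≠ 0) →
      DenQ M G → (∀ w : InfinitePlace F, w G.I ^ 3 + w G.J ^ 2 ≤ T ^ 6) →
      ∃ (H : Q4 F) (j : ℕ), Eqv G H ∧ DenQ (M * n) H ∧ BoxE (K * T) j H := by
  obtain ⟨K₁, hK₁, H₁⟩ := h1 F
  obtain ⟨K₂, n, hK₂, hn, H₂⟩ := h2 F
  obtain ⟨K, hK⟩ : ∃ K : ℝ, K = K₁ * (5 * K₂ ^ 4 + 20 * K₂ ^ 3 + 30 * K₂ ^ 2 + 80 * K₂ ^ 2 + 80 * K₂ +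
      80) * (1 + K₂) ^ 4 := ⟨_, rfl⟩
  refine ⟨K₁ * (80 * (1 + K₂) ^ 4), n ^ 4, by positivity, by positivity, ?_⟩
  intro M T G hT hIJ hM hw
  obtain ⟨p, q, r, s, hdet, hb⟩ := H₁ T G hT hIJ hw
  obtain ⟨p', q', r', s', l, hdet', dp, dq, dr, ds, hl, hlK, n1, n2, n3, n4⟩ :=
    H₂ s (-q) (-r) p (by linear_combination hdet)
  have hx1 : 1 ≤ K₂ / l := by rw [le_div_iff₀ hl]; linarith
  obtain ⟨j, hj1, hj2⟩ := exists_nat_pow_near hx1 (by norm_num : (1 : ℝ) < 2)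
  refine ⟨G.sub p' q' r' s', j, ⟨p', q', r', s', hdet', rfl⟩, hM.sub dp dq dr ds, ?_⟩
  have hsub : mp (ι F) (G.sub p' q' r' s') = ((mp (ι F) G).sub p q r s).sub
      (s * ι F p' + -q * ι F r') (s * ι F q' + -q * ι F s') (-r * ι F p' + p * ι F r')
      (-r * ι F q' + p * ι F s') := by
    rw [mp_sub, Q4.sub_sub]
    have e1 : p * (s * ι F p' + -q * ι F r') + q * (-r * ι F p' + p * ι F r') = ι F p' := by
      linear_combination (ι F p') * hdet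
    have e2 : p * (s * ι F q' + -q * ι F s') + q * (-r * ι F q' + p * ι F s') = ι F q' := by
      linear_combination (ι F q') * hdet
    have e3 : r * (s * ι F p' + -q * ι F r') + s * (-r * ι F p' + p * ι F r') = ι F r' := by
      linear_combination (ι F r') * hdet
    have e4 : r * (s * ι F q' + -q * ι F s') + s * (-r * ι F q' + p * ι F s') = ι F s' := by
      linear_combination (ι F s') * hdet
    rw [e1, e2, e3, e4]
  obtain ⟨b1, b2, b3, b4, b5⟩ := small_sub hb n1 n2 n3 n4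
  rw [← hsub] at b1 b2 b3 b4 b5
  simp only [mp] at b1 b2 b3 b4 b5
  -- the sizes
  obtain ⟨z, hz⟩ : ∃ z : ℝ, z = 2 ^ j := ⟨_, rfl⟩
  have hz0 : 0 < z := by rw [hz]; positivity
  have h4 : (4 : ℝ) ^ j = z ^ 2 := by
    rw [hz, ← pow_mul, mul_comm, pow_mul]
    norm_num
  have h16 : (16 : ℝ) ^ j = z ^ 4 := by
    rw [hz, ← pow_mul, mul_comm, pow_mul]
    norm_num
  have hlz : l * z ≤ K₂ := by
    rw [← hz, le_div_iff₀ hl] at hj1
    linarith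
  have hlz' : K₂ / l ≤ 2 * z := by
    rw [pow_succ, ← hz] at hj2
    linarith
  have hm0 : 0 < K₂ / l := by positivity
  have hle : l ≤ K₂ / z := by rw [le_div_iff₀ hz0]; exact hlz
  have hK1 : 1 ≤ 1 + K₂ := by linarith
  have hK2' : K₂ ≤ 1 + K₂ := by linarith
  have hp : ∀ k : ℕ, k ≤ 4 → K₂ ^ k ≤ (1 + K₂) ^ 4 := fun k hk =>
    (pow_le_pow_left₀ hK₂.le hK2' k).trans (pow_le_pow_right₀ hK1 hk)
  have hTK : 0 < K₁ * T := by positivity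
  constructor
  · apply Bd_of_norm
    refine b1.trans ?_
    rw [h16]
    calc 5 * (K₁ * T) * l ^ 4 ≤ 5 * (K₁ * T) * (K₂ / z) ^ 4 := by gcongr
      _ = 5 * (K₁ * T) * (K₂ ^ 4 / z ^ 4) := by rw [div_pow]
      _ ≤ 80 * (K₁ * T) * ((1 + K₂) ^ 4 / z ^ 4) := by
          have := hp 4 le_rfl
          gcongr
          norm_num
      _ = K₁ * (80 * (1 + K₂) ^ 4) * T / z ^ 4 := by ring
  · apply Bd_of_norm
    refine b2.trans ?_
    rw [h4]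
    calc 20 * (K₁ * T) * (l ^ 3 * (K₂ / l)) = 20 * (K₁ * T) * (l ^ 2 * K₂) := by field_simp
      _ ≤ 20 * (K₁ * T) * ((K₂ / z) ^ 2 * K₂) := by gcongr
      _ = 20 * (K₁ * T) * (K₂ ^ 3 / z ^ 2) := by ring
      _ ≤ 80 * (K₁ * T) * ((1 + K₂) ^ 4 / z ^ 2) := by
          have := hp 3 (by norm_num)
          gcongr
          norm_num
      _ = K₁ * (80 * (1 + K₂) ^ 4) * T / z ^ 2 := by ring
  · apply Bd_of_norm
    refine b3.trans ?_
    calc 30 * (K₁ * T) * (l ^ 2 * (K₂ / l) ^ 2) = 30 * (K₁ * T) * K₂ ^ 2 := by field_simp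
      _ ≤ 80 * (K₁ * T) * (1 + K₂) ^ 4 := by
          have := hp 2 (by norm_num)
          gcongr
          norm_num
      _ = K₁ * (80 * (1 + K₂) ^ 4) * T := by ring
  · apply Bd_of_norm
    refine b4.trans ?_
    rw [h4]
    calc 20 * (K₁ * T) * (l * (K₂ / l) ^ 3) = 20 * (K₁ * T) * (K₂ * (K₂ / l) ^ 2) := by field_simp
      _ ≤ 20 * (K₁ * T) * (K₂ * (2 * z) ^ 2) := by gcongr
      _ = 80 * (K₁ * T) * (K₂ ^ 1 * z ^ 2) := by ring
      _ ≤ 80 * (K₁ * T) * ((1 + K₂) ^ 4 * z ^ 2) := by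
          have := hp 1 (by norm_num)
          gcongr
      _ = K₁ * (80 * (1 + K₂) ^ 4) * T * z ^ 2 := by ring
  · apply Bd_of_norm
    refine b5.trans ?_
    rw [h16]
    calc 5 * (K₁ * T) * (K₂ / l) ^ 4 ≤ 5 * (K₁ * T) * (2 * z) ^ 4 := by gcongr
      _ = 80 * (K₁ * T) * (1 * z ^ 4) := by ring
      _ ≤ 80 * (K₁ * T) * ((1 + K₂) ^ 4 * z ^ 4) := by
          have := hp 0 (by norm_num)
          rw [pow_zero] at this
          gcongr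
      _ = K₁ * (80 * (1 + K₂) ^ 4) * T * z ^ 4 := by ring

end Pool.Agent.L0h50.NR
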