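import Pool.Agent.L0h50.NR.Box
import Pool.Agent.N490.PF.Pts

/-!
# NR, module D3: the number of classes of quartic forms over a number field
-/

set_option autoImplicit false

open NumberField Pool.Agent.L0h45.AR Finset
open scoped Classical

namespace Pool.Agent.L0h50.NR

section pts

variable (F : Type) [Field F] [NumberField F]

/-- counting of integers -/
theorem count : ∃ K : ℝ, 1 ≤ K ∧ (∀ a : 𝓞 F, ∀ R < (1 : ℝ), Bd (a : F) R → a = 0) ∧
    ∀ R : ℝ, 1 ≤ R → ∃ S : Finset (𝓞 F), (∀ a : 𝓞 F, a ∈ S ↔ Bd (a : F) R) ∧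
      R ^ Module.finrank ℚ F ≤ K * (S.card : ℝ) ∧ (S.card : ℝ) ≤ K * R ^ Module.finrank ℚ F := by
  obtain ⟨h1, C, hC, h2, h3⟩ := Pool.Agent.N490.PF.pts F
  refine ⟨1 + 2 * C, by linarith, h1, ?_⟩
  intro R hR
  obtain ⟨hf, hl⟩ := h2 R hR
  obtain ⟨hf', hu⟩ := h3 ⊤ 0 R top_ne_bot (by linarith)
  refine ⟨hf.toFinset, fun a => by rw [Set.Finite.mem_toFinset]; rfl, ?_, ?_⟩
  · rw [← Set.ncard_eq_toFinset_card _ hf]
    have : (0 : ℝ) ≤ ({a : 𝓞 F | Pool.Agent.N783.PF.Bd (a : F) R}.ncard : ℝ) := Nat.cast_nonneg _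
    refine hl.trans ?_
    gcongr
    linarith
  · rw [← Set.ncard_eq_toFinset_card _ hf]
    have e1 : {a : 𝓞 F | a - 0 ∈ (⊤ : Ideal (𝓞 F)) ∧ Pool.Agent.N783.PF.Bd (a : F) R} =
        {a : 𝓞 F | Pool.Agent.N783.PF.Bd (a : F) R} := by
      ext a
      simp
    rw [e1] at hu
    refine hu.trans ?_
    have e2 : (1 : ℝ) ≤ R ^ Module.finrank ℚ F := one_le_pow₀ hR
    rw [Ideal.absNorm_top]
    push_cast
    rw [div_one]
    nlinarith

end pts

section box

variable {F : Type} [Field F] [NumberField F]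

/-- the integers `M x` -/
noncomputable def nu (M : ℕ) (x : F) : 𝓞 F := if h : Den M x then h.choose else 0

theorem nu_spec {M : ℕ} {x : F} (h : Den M x) : ((nu M x : 𝓞 F) : F) = M * x := by
  unfold nu
  rw [dif_pos h]
  exact h.choose_spec

theorem nu_bd {M : ℕ} {x : F} (h : Den M x) {R : ℝ} (hb : Bd x R) : Bd ((nu M x : 𝓞 F) : F) (M * R) := by
  intro σ
  rw [nu_spec h, map_mul, norm_mul, map_natCast]
  have : ‖(M : ℂ)‖ = M := by simp
  rw [this]
  exact mul_le_mul_of_nonneg_left (hb σ) (Nat.cast_nonneg M)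

theorem nu_inj {M : ℕ} (hM : 0 < M) {x y : F} (hx : Den M x) (hy : Den M y) (h : nu M x = nu M y) :
    x = y := by
  have h1 := nu_spec hx
  rw [h, nu_spec hy] at h1
  exact (mul_left_cancel₀ (by exact_mod_cast hM.ne') h1).symm

end box

variable (F : Type) [Field F] [NumberField F]

/-- the forms in a box -/
theorem box_card : ∃ K : ℝ, 0 < K ∧ ∀ (M : ℕ) (L : ℝ) (j : ℕ), 0 < M → (16 : ℝ) ^ j ≤ M * L →
    ∀ S : Finset (Q4 F), (∀ G ∈ S, DenQ M G ∧ BoxE L j G) →
    (S.card : ℝ) ≤ K * (M * L) ^ (5 * Module.finrank ℚ F) := by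
  obtain ⟨K, hK1, -, hK⟩ := count F
  refine ⟨K ^ 5, by positivity, ?_⟩
  intro M L j hM hL S hS
  obtain ⟨d, hd⟩ : ∃ d, d = Module.finrank ℚ F := ⟨_, rfl⟩
  obtain ⟨P, hP⟩ : ∃ P : ℝ, P = M * L := ⟨_, rfl⟩
  have hMR : (0 : ℝ) < M := by exact_mod_cast hM
  rw [← hP] at hL
  have h0 : (1 : ℝ) ≤ 4 ^ j := one_le_pow₀ (by norm_num)
  have h16 : (16 : ℝ) ^ j = 4 ^ j * 4 ^ j := by
    rw [← mul_pow]
    norm_num
  obtain ⟨w, hw⟩ : ∃ w : ℝ, w = 4 ^ j := ⟨_, rfl⟩
  rw [h16, ← hw] at hL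
  rw [← hw] at h0
  have hw0 : 0 < w := by linarith
  have hP0 : 0 < P := lt_of_lt_of_le (by positivity) hL
  have r1 : 1 ≤ P / (w * w) := by rw [le_div_iff₀ (by positivity)]; linarith
  have r2 : 1 ≤ P / w := by rw [le_div_iff₀ (by positivity)]; nlinarith
  have r3 : 1 ≤ P := by nlinarith
  have r4 : 1 ≤ P * w := by nlinarith
  have r5 : 1 ≤ P * (w * w) := by nlinarith [mul_pos hw0 hw0]
  obtain ⟨S1, s1, -, c1⟩ := hK _ r1
  obtain ⟨S2, s2, -, c2⟩ := hK _ r2
  obtain ⟨S3, s3, -, c3⟩ := hK _ r3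
  obtain ⟨S4, s4, -, c4⟩ := hK _ r4
  obtain ⟨S5, s5, -, c5⟩ := hK _ r5
  have hcard : S.card ≤ ((S1 ×ˢ S2) ×ˢ (S3 ×ˢ (S4 ×ˢ S5))).card := by
    apply card_le_card_of_injOn (fun G => ((nu M G.a, nu M G.b), (nu M G.c, (nu M G.d, nu M G.e))))
    · intro G hG
      obtain ⟨⟨da, db, dc, dd, de⟩, hb⟩ := hS G hG
      rw [mem_coe, mem_product, mem_product, mem_product, mem_product]
      refine ⟨⟨?_, ?_⟩, ?_, ?_, ?_⟩
      · rw [s1]
        have := nu_bd da hb.a
        have e1 : P / (w * w) = M * (L / 16 ^ j) := by rw [hP, h16, ← hw]; ring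
        rw [e1]; exact this
      · rw [s2]
        have := nu_bd db hb.b
        have e1 : P / w = M * (L / 4 ^ j) := by rw [hP, ← hw]; ring
        rw [e1]; exact this
      · rw [s3]
        have := nu_bd dc hb.c
        rw [hP]; exact this
      · rw [s4]
        have := nu_bd dd hb.d
        have e1 : P * w = M * (L * 4 ^ j) := by rw [hP, ← hw]; ring
        rw [e1]; exact this
      · rw [s5]
        have := nu_bd de hb.e
        have e1 : P * (w * w) = M * (L * 16 ^ j) := by rw [hP, h16, ← hw]; ring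
        rw [e1]; exact this
    · intro G hG H hH he
      rw [mem_coe] at hG hH
      obtain ⟨⟨da, db, dc, dd, de⟩, -⟩ := hS G hG
      obtain ⟨⟨da', db', dc', dd', de'⟩, -⟩ := hS H hH
      simp only [Prod.mk.injEq] at he
      obtain ⟨⟨h1, h2⟩, h3, h4, h5⟩ := he
      exact Q4.ext (nu_inj hM da da' h1) (nu_inj hM db db' h2) (nu_inj hM dc dc' h3)
        (nu_inj hM dd dd' h4) (nu_inj hM de de' h5)
  rw [card_product, card_product, card_product, card_product] at hcard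
  have hcard' : (S.card : ℝ) ≤ ((S1.card : ℝ) * S2.card) * (S3.card * ((S4.card : ℝ) * S5.card)) := by
    exact_mod_cast hcard
  rw [← hd] at c1 c2 c3 c4 c5 ⊢
  rw [← hP]
  refine hcard'.trans ?_
  calc ((S1.card : ℝ) * S2.card) * (S3.card * ((S4.card : ℝ) * S5.card)) ≤
        ((K * (P / (w * w)) ^ d) * (K * (P / w) ^ d)) * ((K * P ^ d) *
          ((K * (P * w) ^ d) * (K * (P * (w * w)) ^ d))) := by
        gcongr
    _ = K ^ 5 * (((P / (w * w)) * (P / w)) * (P * ((P * w) * (P * (w * w))))) ^ d := by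
        simp only [mul_pow]
        ring
    _ = K ^ 5 * P ^ (5 * d) := by
        have e1 : ((P / (w * w)) * (P / w)) * (P * ((P * w) * (P * (w * w)))) = P ^ 5 := by
          field_simp
        rw [e1, ← pow_mul]

/-- **D3** -/
theorem d3 (h1 : S_D1E) (h2 : S_RED) : S_D3 := by
  intro F _ _ M₀ hM₀
  obtain ⟨C, n, hC, hn, H⟩ := reduce h1 h2 F
  obtain ⟨K, hK1, hsm, hK⟩ := count F
  obtain ⟨K', hK', hbox⟩ := box_card F
  obtain ⟨M, hM⟩ : ∃ M, M = M₀ * n := ⟨_, rfl⟩
  have hMpos : 0 < M := by rw [hM]; positivity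
  have hMR : (1 : ℝ) ≤ M := by exact_mod_cast hMpos
  obtain ⟨d, hd⟩ : ∃ d, d = Module.finrank ℚ F := ⟨_, rfl⟩
  have hd1 : 1 ≤ d := by rw [hd]; exact Module.finrank_pos
  rw [← hd] at hK hbox
  refine ⟨2 * (K * (K' * (M * (10 * C)) ^ (5 * d))), by positivity, ?_⟩
  intro T S hT hS hne
  rw [← hd]
  have hT0 : 0 < T := by linarith
  haveI : Nonempty (Q4 F) := ⟨⟨0, 0, 0, 0, 0⟩⟩
  have hred : ∀ G ∈ S, ∃ (H : Q4 F) (j : ℕ), Eqv G H ∧ DenQ M H ∧ BoxE (C * T) j H := by
    intro G hG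
    obtain ⟨a1, a2, a3, a4⟩ := hS G hG
    rw [hM]
    exact H M₀ T G hT0 a1 a3 a4
  choose! G hG using hred
  choose! j hG1 hG2 hG3 using hG
  have hGa : ∀ F' ∈ S, (G F').a ≠ 0 := fun F' hF => (hS F' hF).2.1 _ (hG1 F' hF)
  obtain ⟨N, hN⟩ : ∃ N, N = (S.image j).sup id + 1 := ⟨_, rfl⟩
  have hjN : ∀ F' ∈ S, j F' ∈ range N := by
    intro F' hF
    rw [mem_range, hN]
    have := le_sup (f := id) (mem_image_of_mem j hF)
    simp only [id] at this
    omega
  have hcount : ∀ m : ℕ, (((S.filter (fun F' => j F' = m)).card : ℕ) : ℝ) ≤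
      K * (K' * (M * (10 * (C * T))) ^ (5 * d)) * (1 / 4) ^ m := by
    intro m
    rcases (S.filter (fun F' => j F' = m)).eq_empty_or_nonempty with he | ⟨F₀, hF₀⟩
    · rw [he, card_empty, Nat.cast_zero]
      positivity
    · rw [mem_filter] at hF₀
      obtain ⟨hF₀S, hF₀m⟩ := hF₀
      have hL : (16 : ℝ) ^ m ≤ M * (10 * (C * T)) := by
        by_contra hcon
        push Not at hcon
        have h3 := (hG3 F₀ hF₀S).a
        rw [hF₀m] at h3
        have h4 := nu_bd (hG2 F₀ hF₀S).1 h3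
        have h5 : (M : ℝ) * (C * T / 16 ^ m) < 1 := by
          rw [← mul_div_assoc, div_lt_one (by positivity)]
          have : 0 < (M : ℝ) * (C * T) := by positivity
          nlinarith
        have h6 := hsm _ _ h5 h4
        have h7 := nu_spec (hG2 F₀ hF₀S).1
        rw [h6] at h7
        have h8 : (M : F) * (G F₀).a = 0 := by rw [← h7]; simp
        rcases mul_eq_zero.mp h8 with h9 | h9
        · exact hMpos.ne' (by exact_mod_cast h9)
        · exact hGa F₀ hF₀S h9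
      obtain ⟨Sk, hSk, hSk1, -⟩ := hK ((4 : ℝ) ^ m) (one_le_pow₀ (by norm_num))
      obtain ⟨Img, hImg⟩ : ∃ Img : Finset (Q4 F), Img =
          ((S.filter (fun F' => j F' = m)) ×ˢ Sk).image
            (fun z => (G z.1).sub 1 ((z.2 : 𝓞 F) : F) 0 1) := ⟨_, rfl⟩
      have hinj : ((S.filter (fun F' => j F' = m)) ×ˢ Sk).card = Img.card := by
        rw [hImg, card_image_of_injOn]
        rintro ⟨F', k⟩ hz ⟨F'', k'⟩ hz' heq
        rw [mem_coe, mem_product, mem_filter] at hz hz'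
        obtain ⟨⟨h3, h4⟩, h5⟩ := hz
        obtain ⟨⟨h3', h4'⟩, h5'⟩ := hz'
        simp only at heq h3 h3' h4 h4' h5 h5'
        have hFF : F' = F'' := by
          by_contra hcon
          apply hne F' h3 F'' h3' hcon
          have e1 := (hG1 F' h3).trans (Eqv.uni (G F') (k : F))
          have e2 := (hG1 F'' h3').trans (Eqv.uni (G F'') (k' : F))
          rw [heq] at e1
          exact e1.trans e2.symm
        subst hFF
        rw [Q4.sub_uni, Q4.sub_uni] at heq
        have h6 := congrArg Q4.b heq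
        simp only at h6
        have h7 : (4 * (G F').a) * (k : F) = (4 * (G F').a) * (k' : F) := by linear_combination h6
        have h8 : (k : F) = k' := mul_left_cancel₀ (mul_ne_zero (by norm_num) (hGa F' h3)) h7
        have h9 : k = k' := by exact_mod_cast h8
        rw [h9]
      have hImgb : (Img.card : ℝ) ≤ K' * (M * (10 * (C * T))) ^ (5 * d) := by
        apply hbox M (10 * (C * T)) m hMpos hL
        intro Q hQ
        rw [hImg, mem_image] at hQ
        obtain ⟨⟨F', k⟩, hz, rfl⟩ := hQ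
        rw [mem_product, mem_filter] at hz
        obtain ⟨⟨h3, h4⟩, h5⟩ := hz
        simp only at h3 h4 h5
        have h6 := hG3 F' h3
        rw [h4] at h6
        rw [hSk] at h5
        refine ⟨?_, h6.uni h5⟩
        have h7 := (hG2 F' h3).sub (n := 1) (p := 1) (q := (k : F)) (r := 0) (s := 1)
          ⟨1, by simp⟩ ⟨k, by simp⟩ ⟨0, by simp⟩ ⟨1, by simp⟩
        rwa [one_pow, mul_one] at h7
      rw [card_product] at hinj
      have h3 : (((S.filter (fun F' => j F' = m)).card : ℕ) : ℝ) * (Sk.card : ℝ) ≤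
          K' * (M * (10 * (C * T))) ^ (5 * d) := by
        refine le_trans (le_of_eq ?_) hImgb
        exact_mod_cast hinj
      have h4 : (4 : ℝ) ^ m ≤ K * (Sk.card : ℝ) := by
        refine le_trans ?_ hSk1
        exact le_self_pow₀ (one_le_pow₀ (by norm_num)) (by omega)
      rw [one_div, inv_pow, ← div_eq_mul_inv, le_div_iff₀ (by positivity)]
      calc (((S.filter (fun F' => j F' = m)).card : ℕ) : ℝ) * 4 ^ m ≤
            (((S.filter (fun F' => j F' = m)).card : ℕ) : ℝ) * (K * (Sk.card : ℝ)) := by gcongr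
        _ = K * ((((S.filter (fun F' => j F' = m)).card : ℕ) : ℝ) * (Sk.card : ℝ)) := by ring
        _ ≤ K * (K' * (M * (10 * (C * T))) ^ (5 * d)) := by gcongr
  have hsum : (S.card : ℝ) = ∑ m ∈ range N, (((S.filter (fun F' => j F' = m)).card : ℕ) : ℝ) := by
    rw [card_eq_sum_card_fiberwise (f := j) (t := range N) (fun F' hF => hjN F' hF)]
    push_cast
    rfl
  have hgeo : ∑ m ∈ range N, ((1 : ℝ) / 4) ^ m ≤ 2 := by
    have h3 : ∀ n : ℕ, ∑ m ∈ range n, ((1 : ℝ) / 4) ^ m ≤ 2 - 2 * (1 / 4) ^ n := by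
      intro n
      induction n with
      | zero => norm_num
      | succ n ih =>
        rw [sum_range_succ, pow_succ]
        have : (0 : ℝ) < (1 / 4) ^ n := by positivity
        linarith
    have h4 : (0 : ℝ) < (1 / 4) ^ N := by positivity
    linarith [h3 N]
  rw [hsum]
  calc _ ≤ ∑ m ∈ range N, K * (K' * (M * (10 * (C * T))) ^ (5 * d)) * (1 / 4) ^ m :=
        sum_le_sum fun m _ => hcount m
    _ = K * (K' * (M * (10 * (C * T))) ^ (5 * d)) * ∑ m ∈ range N, (1 / 4) ^ m := by rw [mul_sum]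
    _ ≤ K * (K' * (M * (10 * (C * T))) ^ (5 * d)) * 2 := by gcongr
    _ = 2 * (K * (K' * (M * (10 * C)) ^ (5 * d))) * T ^ (5 * d) := by
        have e1 : (M : ℝ) * (10 * (C * T)) = (M * (10 * C)) * T := by ring
        rw [e1, mul_pow]
        ring

end Pool.Agent.L0h50.NR
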