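import Pool.Agent.L0h50.NR.Stm2
import Pool.Agent.N490.PF.Pts
import Pool.Agent.N195.PF.PR

/-!
# NR, module LOW: the number of the minimal equations in a box
-/

set_option autoImplicit false

open NumberField Finset IsDedekindDomain
open scoped Classical

namespace Pool.Agent.L0h50.NR

open Pool.Agent.N352.PF (nv)

section

variable {F : Type} [Field F] [NumberField F]

theorem two_not (z : 𝓞 F) : (1 : 𝓞 F) ≠ 2 * z := by
  intro h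
  have h1 : (1 : 𝓞 F) ∈ Ideal.span {((2 : ℕ) : 𝓞 F)} := by
    rw [Ideal.mem_span_singleton]
    exact ⟨z, by push_cast; exact h⟩
  have h2 : Ideal.span {((2 : ℕ) : 𝓞 F)} = ⊤ := (Ideal.eq_top_iff_one _).mpr h1
  have h3 := Pool.Agent.N195.PF.absNorm_nat (F := F) 2
  rw [h2, Ideal.absNorm_top] at h3
  have h4 : 1 < 2 ^ Module.finrank ℚ F := Nat.one_lt_two_pow Module.finrank_pos.ne'
  have h5 : Pool.Agent.N352.PF.dg F = Module.finrank ℚ F := rfl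
  rw [h5] at h3
  omega

/-- upper bound for the class of `1` modulo `W` in `v ^ 6` -/
theorem cnt_b {C : ℝ} (hC : 0 < C) (hup : ∀ (𝔞 : Ideal (𝓞 F)) (b : 𝓞 F) (R : ℝ), 𝔞 ≠ ⊥ → 0 ≤ R →
      {a : 𝓞 F | a - b ∈ 𝔞 ∧ Pool.Agent.N783.PF.Bd (a : F) R}.Finite ∧
      (({a : 𝓞 F | a - b ∈ 𝔞 ∧ Pool.Agent.N783.PF.Bd (a : F) R}.ncard : ℝ)) ≤
        C * (R ^ Module.finrank ℚ F / (Ideal.absNorm 𝔞 : ℝ) + 1)) {W : ℕ} (hW : 0 < W)
    (v : HeightOneSpectrum (𝓞 F)) {R : ℝ} (hR : 0 ≤ R) (S : Finset (𝓞 F))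
    (hS : ∀ b ∈ S, b - 1 ∈ Ideal.span {(W : 𝓞 F)} ∧ b ∈ v.asIdeal ^ 6 ∧ Bd (b : F) R) :
    (S.card : ℝ) ≤ C * (R ^ Module.finrank ℚ F / ((W : ℝ) ^ Module.finrank ℚ F * (nv v : ℝ) ^ 6) + 1) := by
  rcases S.eq_empty_or_nonempty with he | ⟨b₀, hb₀⟩
  · rw [he, card_empty, Nat.cast_zero]
    positivity
  · obtain ⟨h1, h2, h3⟩ := hS b₀ hb₀
    have hcop : IsCoprime (Ideal.span {(W : 𝓞 F)}) (v.asIdeal ^ 6) := by
      rw [Ideal.isCoprime_iff_exists]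
      refine ⟨-(b₀ - 1), ?_, b₀, h2, by ring⟩
      exact (Ideal.span {(W : 𝓞 F)}).neg_mem h1
    have hWF : (W : 𝓞 F) ≠ 0 := by exact_mod_cast hW.ne'
    have hne : Ideal.span {(W : 𝓞 F)} * v.asIdeal ^ 6 ≠ ⊥ := by
      rw [Ne, Ideal.mul_eq_bot, not_or, Ideal.span_singleton_eq_bot]
      exact ⟨hWF, pow_ne_zero _ v.ne_bot⟩
    obtain ⟨hf, hc⟩ := hup _ b₀ R hne hR
    have hsub : (S : Set (𝓞 F)) ⊆ {a : 𝓞 F | a - b₀ ∈ Ideal.span {(W : 𝓞 F)} * v.asIdeal ^ 6 ∧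
        Pool.Agent.N783.PF.Bd (a : F) R} := by
      intro a ha
      obtain ⟨g1, g2, g3⟩ := hS a ha
      refine ⟨?_, g3⟩
      rw [Ideal.mul_eq_inf_of_isCoprime hcop]
      refine ⟨?_, ?_⟩
      · have : a - b₀ = (a - 1) - (b₀ - 1) := by ring
        rw [this]
        exact Ideal.sub_mem _ g1 h1
      · exact Ideal.sub_mem _ g2 h2
    have h4 := Set.ncard_le_ncard hsub hf
    rw [Set.ncard_coe_finset] at h4
    have h5 : (S.card : ℝ) ≤ ({a : 𝓞 F | a - b₀ ∈ Ideal.span {(W : 𝓞 F)} * v.asIdeal ^ 6 ∧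
        Pool.Agent.N783.PF.Bd (a : F) R}.ncard : ℝ) := by exact_mod_cast h4
    refine h5.trans (hc.trans (le_of_eq ?_))
    rw [map_mul, map_pow, Pool.Agent.N195.PF.absNorm_nat]
    push_cast
    rfl

/-- lower bound for the class of `1` modulo `W` -/
theorem cnt_l {C : ℝ} (hC : 0 < C) (hlow : ∀ R : ℝ, 1 ≤ R →
      {a : 𝓞 F | Pool.Agent.N783.PF.Bd (a : F) R}.Finite ∧
      R ^ Module.finrank ℚ F ≤ C * ({a : 𝓞 F | Pool.Agent.N783.PF.Bd (a : F) R}.ncard : ℝ)) {W : ℕ}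
    (hW : 0 < W) {R : ℝ} (hR : 2 * (W : ℝ) ≤ R) (S : Finset (𝓞 F))
    (hS : ∀ b : 𝓞 F, b - 1 ∈ Ideal.span {(W : 𝓞 F)} → Bd (b : F) R → b ∈ S) :
    (R / (2 * W)) ^ Module.finrank ℚ F ≤ C * (S.card : ℝ) := by
  have hWR : (1 : ℝ) ≤ W := by exact_mod_cast hW
  have hR2 : 2 ≤ R := by linarith
  have hR' : 1 ≤ (R - 1) / W := by
    rw [le_div_iff₀ (by linarith)]
    linarith
  obtain ⟨hf, hl⟩ := hlow _ hR'
  have h1 : {a : 𝓞 F | Pool.Agent.N783.PF.Bd (a : F) ((R - 1) / W)}.ncard ≤ S.card := by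
    rw [← Set.ncard_coe_finset]
    apply Set.ncard_le_ncard_of_injOn (fun a => 1 + (W : 𝓞 F) * a) _ _ (Finset.finite_toSet S)
    · intro a ha
      apply hS
      · rw [Ideal.mem_span_singleton]
        exact ⟨a, by ring⟩
      · intro σ
        have h2 : ‖σ (a : F)‖ ≤ (R - 1) / W := ha σ
        have h3 : σ (((1 + (W : 𝓞 F) * a : 𝓞 F) : F)) = 1 + (W : ℂ) * σ (a : F) := by
          push_cast
          simp
        rw [h3]
        have h4 : ‖(W : ℂ)‖ = W := by simp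
        calc ‖1 + (W : ℂ) * σ (a : F)‖ ≤ ‖(1 : ℂ)‖ + ‖(W : ℂ) * σ (a : F)‖ := norm_add_le _ _
          _ = 1 + W * ‖σ (a : F)‖ := by rw [norm_mul, h4, norm_one]
          _ ≤ 1 + W * ((R - 1) / W) := by gcongr
          _ = R := by field_simp; ring
    · intro a _ b _ h
      simp only at h
      have hWF : (W : 𝓞 F) ≠ 0 := by exact_mod_cast hW.ne'
      exact mul_left_cancel₀ hWF (add_left_cancel h)
  calc (R / (2 * W)) ^ Module.finrank ℚ F ≤ ((R - 1) / W) ^ Module.finrank ℚ F := by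
        apply pow_le_pow_left₀ (by positivity)
        rw [div_le_div_iff₀ (by linarith) (by linarith)]
        nlinarith
    _ ≤ C * ({a : 𝓞 F | Pool.Agent.N783.PF.Bd (a : F) ((R - 1) / W)}.ncard : ℝ) := hl
    _ ≤ C * (S.card : ℝ) := by
        gcongr

end

/-- **LOW** -/
theorem low : S_LOW := by
  intro F _ _
  obtain ⟨-, C, hC, hlow, hup⟩ := Pool.Agent.N490.PF.pts F
  obtain ⟨d, hd⟩ : ∃ d, d = Module.finrank ℚ F := ⟨_, rfl⟩
  have hd0 : 0 < d := by rw [hd]; exact Module.finrank_pos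
  obtain ⟨ε, hε⟩ : ∃ ε : ℝ, ε = 1 / (8 * C ^ 4 * 2 ^ d) := ⟨_, rfl⟩
  have hε0 : 0 < ε := by rw [hε]; positivity
  obtain ⟨M, hM⟩ := Pool.Agent.N195.PF.pr F ε hε0
  obtain ⟨hfin, -, h2v⟩ := Pool.Agent.N195.PF.pf F
  obtain ⟨W, hW⟩ : ∃ W : ℕ, W = 2 * M.factorial := ⟨_, rfl⟩
  have hW0 : 0 < W := by rw [hW]; exact Nat.mul_pos (by norm_num) M.factorial_pos
  have hWR : (1 : ℝ) ≤ W := by exact_mod_cast hW0
  have hW2 : ∀ b : 𝓞 F, b - 1 ∈ Ideal.span {(W : 𝓞 F)} → ∃ y : 𝓞 F, b = 1 + 2 * y := by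
    intro b hb
    rw [Ideal.mem_span_singleton] at hb
    obtain ⟨z, hz⟩ := hb
    refine ⟨(M.factorial : 𝓞 F) * z, ?_⟩
    rw [hW] at hz
    push_cast at hz
    linear_combination hz
  refine ⟨1 / (2 * C ^ 2 * 2 ^ d * W ^ d), 2 * W + 2, by positivity, ?_⟩
  intro R hR
  have hR2 : 2 ≤ R := by linarith
  have hR0 : 0 < R := by linarith
  have hR3 : 2 * (W : ℝ) ≤ R ^ 3 := by
    have : R ≤ R ^ 3 := le_self_pow₀ (by linarith) (by norm_num)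
    linarith
  -- the sets
  obtain ⟨hA, hA'⟩ := hlow (R ^ 2) (one_le_pow₀ (by linarith))
  have hspan : Ideal.span {(W : 𝓞 F)} ≠ ⊥ := by
    rw [Ne, Ideal.span_singleton_eq_bot]
    exact_mod_cast hW0.ne'
  obtain ⟨hB, -⟩ := hup (Ideal.span {(W : 𝓞 F)}) 1 (R ^ 3) hspan (by positivity)
  obtain ⟨SA, hSA⟩ : ∃ SA : Finset (𝓞 F), SA = hA.toFinset := ⟨_, rfl⟩
  obtain ⟨SB, hSB⟩ : ∃ SB : Finset (𝓞 F), SB = hB.toFinset := ⟨_, rfl⟩
  have mA : ∀ a, a ∈ SA ↔ Bd (a : F) (R ^ 2) := fun a => by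
    rw [hSA, Set.Finite.mem_toFinset]; rfl
  have mB : ∀ b, b ∈ SB ↔ b - 1 ∈ Ideal.span {(W : 𝓞 F)} ∧ Bd (b : F) (R ^ 3) := fun b => by
    rw [hSB, Set.Finite.mem_toFinset]; rfl
  have cA : (R ^ 2) ^ d ≤ C * (SA.card : ℝ) := by
    rw [hSA, ← Set.ncard_eq_toFinset_card _ hA, hd]
    exact hA'
  have cB : (R ^ 3 / (2 * W)) ^ d ≤ C * (SB.card : ℝ) := by
    rw [hd]
    exact cnt_l hC hlow hW0 hR3 SB fun b h1 h2 => (mB b).mpr ⟨h1, h2⟩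
  obtain ⟨P, hP⟩ : ∃ P : Finset (𝓞 F × 𝓞 F), P = SA ×ˢ SB := ⟨_, rfl⟩
  obtain ⟨bad, hbad⟩ : ∃ bad : 𝓞 F × 𝓞 F → Prop, bad = fun q => ∃ 𝔭 : Ideal (𝓞 F), 𝔭.IsPrime ∧ 𝔭 ≠ ⊥ ∧
    q.1 ∈ 𝔭 ^ 4 ∧ q.2 ∈ 𝔭 ^ 6 := ⟨_, rfl⟩
  -- the bad pairs
  have hTf : {v : HeightOneSpectrum (𝓞 F) | M < nv v ∧ (nv v : ℝ) ^ 6 ≤ (R ^ 3) ^ d}.Finite := by
    obtain ⟨k, hk⟩ := exists_nat_ge ((R ^ 3) ^ d)
    apply (hfin k).subset
    rintro v ⟨-, hv⟩
    have h1 : (nv v : ℝ) ≤ (nv v : ℝ) ^ 6 := by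
      apply le_self_pow₀ _ (by norm_num)
      have := h2v v
      exact_mod_cast (by omega : 1 ≤ nv v)
    have h2 : (nv v : ℝ) ≤ k := (h1.trans hv).trans hk
    exact_mod_cast h2
  obtain ⟨Tv, hTv⟩ : ∃ Tv : Finset (HeightOneSpectrum (𝓞 F)), Tv = hTf.toFinset := ⟨_, rfl⟩
  have mT : ∀ v, v ∈ Tv ↔ M < nv v ∧ (nv v : ℝ) ^ 6 ≤ (R ^ 3) ^ d := fun v => by
    rw [hTv, Set.Finite.mem_toFinset]; rfl
  have hcov : P.filter bad ⊆ Tv.biUnion (fun v =>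
      (SA.filter (fun a => a ∈ v.asIdeal ^ 4)) ×ˢ (SB.filter (fun b => b ∈ v.asIdeal ^ 6))) := by
    intro q hq
    rw [mem_filter, hP, mem_product, hbad] at hq
    obtain ⟨⟨h1, h2⟩, 𝔭, hp, hp0, h3, h4⟩ := hq
    rw [mem_biUnion]
    refine ⟨⟨𝔭, hp, hp0⟩, ?_, ?_⟩
    · rw [mT]
      obtain ⟨g1, g2⟩ := (mB _).mp h2
      constructor
      · by_contra hcon
        push Not at hcon
        have h5 : (nv (⟨𝔭, hp, hp0⟩ : HeightOneSpectrum (𝓞 F)) : 𝓞 F) ∈ 𝔭 := Ideal.absNorm_mem 𝔭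
        have h6 : nv (⟨𝔭, hp, hp0⟩ : HeightOneSpectrum (𝓞 F)) ∣ W := by
          rw [hW]
          apply Dvd.dvd.mul_left
          apply Nat.dvd_factorial _ hcon
          have := h2v ⟨𝔭, hp, hp0⟩
          omega
        obtain ⟨k, hk⟩ := h6
        have h7 : (W : 𝓞 F) ∈ 𝔭 := by
          rw [hk]
          push_cast
          exact Ideal.mul_mem_right _ _ h5
        have h8 : q.2 - 1 ∈ 𝔭 := (Ideal.span_singleton_le_iff_mem _).mpr h7 g1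
        have h9 : q.2 ∈ 𝔭 := Ideal.pow_le_self (by norm_num) h4
        apply hp.ne_top
        rw [Ideal.eq_top_iff_one]
        have : (1 : 𝓞 F) = q.2 - (q.2 - 1) := by ring
        rw [this]
        exact Ideal.sub_mem _ h9 h8
      · have hne : q.2 ≠ 0 := by
          intro h0
          obtain ⟨y, hy⟩ := hW2 _ g1
          apply two_not (-y)
          rw [h0] at hy
          linear_combination (-1) * hy
        obtain ⟨-, h5⟩ := Pool.Agent.N490.PF.norm_ge (𝔞 := 𝔭 ^ 6) (x := q.2) h4 hne g2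
        rw [map_pow] at h5
        rw [hd]
        unfold nv
        exact_mod_cast h5
    · rw [mem_product, mem_filter, mem_filter]
      exact ⟨⟨h1, h3⟩, h2, h4⟩
  have hv : ∀ v ∈ Tv, (((SA.filter (fun a => a ∈ v.asIdeal ^ 4)) ×ˢ
      (SB.filter (fun b => b ∈ v.asIdeal ^ 6))).card : ℝ) ≤
      4 * C ^ 2 * ((R ^ 5) ^ d / (W : ℝ) ^ d) * (1 / (nv v : ℝ) ^ 2) := by
    intro v hv
    obtain ⟨-, hv6⟩ := (mT v).mp hv
    obtain ⟨x, hx⟩ : ∃ x : ℝ, x = nv v := ⟨_, rfl⟩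
    have hx1 : 1 ≤ x := by
      rw [hx]
      have := h2v v
      exact_mod_cast (by omega : 1 ≤ nv v)
    have hx0 : 0 < x := by linarith
    rw [← hx] at hv6
    have hx4 : x ^ 4 ≤ (R ^ 2) ^ d := by
      have h1 : (x ^ 2) ^ 3 ≤ (R ^ d) ^ 3 := by
        calc (x ^ 2) ^ 3 = x ^ 6 := by ring
          _ ≤ (R ^ 3) ^ d := hv6
          _ = (R ^ d) ^ 3 := by rw [← pow_mul, ← pow_mul, mul_comm]
      have h2 : x ^ 2 ≤ R ^ d := le_of_pow_le_pow_left₀ (by norm_num) (by positivity) h1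
      calc x ^ 4 = (x ^ 2) ^ 2 := by ring
        _ ≤ (R ^ d) ^ 2 := by gcongr
        _ = (R ^ 2) ^ d := by rw [← pow_mul, ← pow_mul, mul_comm]
    have k1 : ((SA.filter (fun a => a ∈ v.asIdeal ^ 4)).card : ℝ) ≤ 2 * C * ((R ^ 2) ^ d / x ^ 4) := by
      obtain ⟨hf, hc⟩ := hup (v.asIdeal ^ 4) 0 (R ^ 2) (pow_ne_zero _ v.ne_bot) (by positivity)
      have hsub : ((SA.filter (fun a => a ∈ v.asIdeal ^ 4) : Finset (𝓞 F)) : Set (𝓞 F)) ⊆
          {a : 𝓞 F | a - 0 ∈ v.asIdeal ^ 4 ∧ Pool.Agent.N783.PF.Bd (a : F) (R ^ 2)} := by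
        intro a ha
        rw [mem_coe, mem_filter, mA] at ha
        refine ⟨by rw [sub_zero]; exact ha.2, ha.1⟩
      have h4 := Set.ncard_le_ncard hsub hf
      rw [Set.ncard_coe_finset] at h4
      have h5 : ((SA.filter (fun a => a ∈ v.asIdeal ^ 4)).card : ℝ) ≤
          ({a : 𝓞 F | a - 0 ∈ v.asIdeal ^ 4 ∧ Pool.Agent.N783.PF.Bd (a : F) (R ^ 2)}.ncard : ℝ) := by
        exact_mod_cast h4
      refine (h5.trans hc).trans ?_
      rw [map_pow]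
      have e1 : ((Ideal.absNorm v.asIdeal ^ 4 : ℕ) : ℝ) = x ^ 4 := by
        rw [hx]; unfold nv; push_cast; rfl
      rw [e1, ← hd]
      have e2 : 1 ≤ (R ^ 2) ^ d / x ^ 4 := by rw [le_div_iff₀ (by positivity)]; linarith
      nlinarith
    have k2 : ((SB.filter (fun b => b ∈ v.asIdeal ^ 6)).card : ℝ) ≤
        C * ((R ^ 3) ^ d / ((W : ℝ) ^ d * x ^ 6) + 1) := by
      have := cnt_b hC hup hW0 v (R := R ^ 3) (by positivity) (SB.filter (fun b => b ∈ v.asIdeal ^ 6)) (by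
        intro b hb
        rw [mem_filter, mB] at hb
        exact ⟨hb.1.1, hb.2, hb.1.2⟩)
      rw [hx, hd]
      exact this
    rw [card_product]
    push_cast
    have hWd : (W : ℝ) ^ d ≤ (R ^ 3) ^ d := by
      apply pow_le_pow_left₀ (by positivity)
      linarith
    have hWd0 : 0 < (W : ℝ) ^ d := by positivity
    have e5 : (R ^ 5) ^ d = (R ^ 2) ^ d * (R ^ 3) ^ d := by
      rw [← mul_pow]; congr 1; ring
    calc ((SA.filter (fun a => a ∈ v.asIdeal ^ 4)).card : ℝ) *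
          ((SB.filter (fun b => b ∈ v.asIdeal ^ 6)).card : ℝ) ≤
          (2 * C * ((R ^ 2) ^ d / x ^ 4)) * (C * ((R ^ 3) ^ d / ((W : ℝ) ^ d * x ^ 6) + 1)) := by gcongr
      _ = 2 * C ^ 2 * ((R ^ 2) ^ d / x ^ 4) * ((R ^ 3) ^ d / ((W : ℝ) ^ d * x ^ 6) + 1) := by ring
      _ ≤ 2 * C ^ 2 * ((R ^ 2) ^ d / x ^ 2) * ((R ^ 3) ^ d / (W : ℝ) ^ d + (R ^ 3) ^ d / (W : ℝ) ^ d) := by
          have g1 : (R ^ 2) ^ d / x ^ 4 ≤ (R ^ 2) ^ d / x ^ 2 := by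
            apply div_le_div_of_nonneg_left (by positivity) (by positivity)
            exact pow_le_pow_right₀ hx1 (by norm_num)
          have g2 : (R ^ 3) ^ d / ((W : ℝ) ^ d * x ^ 6) ≤ (R ^ 3) ^ d / (W : ℝ) ^ d := by
            apply div_le_div_of_nonneg_left (by positivity) (by positivity)
            exact le_mul_of_one_le_right hWd0.le (one_le_pow₀ hx1)
          have g3 : 1 ≤ (R ^ 3) ^ d / (W : ℝ) ^ d := by
            rw [le_div_iff₀ hWd0]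
            linarith
          gcongr
      _ = 4 * C ^ 2 * ((R ^ 5) ^ d / (W : ℝ) ^ d) * (1 / x ^ 2) := by
          rw [e5]
          field_simp
          ring
      _ = _ := by rw [hx]
  have hbadc : ((P.filter bad).card : ℝ) ≤ 4 * C ^ 2 * ((R ^ 5) ^ d / (W : ℝ) ^ d) * ε := by
    have h1 := (card_le_card hcov).trans card_biUnion_le
    have h2 : ((P.filter bad).card : ℝ) ≤ ∑ v ∈ Tv, (((SA.filter (fun a => a ∈ v.asIdeal ^ 4)) ×ˢ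
      (SB.filter (fun b => b ∈ v.asIdeal ^ 6))).card : ℝ) := by exact_mod_cast h1
    calc _ ≤ _ := h2
      _ ≤ ∑ v ∈ Tv, 4 * C ^ 2 * ((R ^ 5) ^ d / (W : ℝ) ^ d) * (1 / (nv v : ℝ) ^ 2) := sum_le_sum hv
      _ = 4 * C ^ 2 * ((R ^ 5) ^ d / (W : ℝ) ^ d) * ∑ v ∈ Tv, 1 / (nv v : ℝ) ^ 2 := by rw [mul_sum]
      _ ≤ _ := by
          have := hM Tv fun v hv => ((mT v).mp hv).1
          gcongr
  have hPc : (R ^ 5) ^ d / (C ^ 2 * 2 ^ d * (W : ℝ) ^ d) ≤ (P.card : ℝ) := by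
    rw [hP, card_product]
    push_cast
    have h1 : (R ^ 2) ^ d * (R ^ 3 / (2 * W)) ^ d ≤ (C * (SA.card : ℝ)) * (C * (SB.card : ℝ)) := by gcongr
    rw [div_le_iff₀ (by positivity)]
    have e1 : (R ^ 5) ^ d = (R ^ 2) ^ d * (R ^ 3 / (2 * W)) ^ d * (2 ^ d * (W : ℝ) ^ d) := by
      rw [← mul_pow, ← mul_pow, ← mul_pow]
      congr 1
      field_simp
    rw [e1]
    calc (R ^ 2) ^ d * (R ^ 3 / (2 * W)) ^ d * (2 ^ d * (W : ℝ) ^ d) ≤
          ((C * (SA.card : ℝ)) * (C * (SB.card : ℝ))) * (2 ^ d * (W : ℝ) ^ d) := by gcongr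
      _ = _ := by ring
  have hgood : (1 / (2 * C ^ 2 * 2 ^ d * W ^ d)) * R ^ (5 * d) ≤ ((P.filter (fun q => ¬ bad q)).card : ℝ) := by
    have h1 := card_filter_add_card_filter_not (s := P) bad
    have h2 : ((P.filter bad).card : ℝ) + ((P.filter (fun q => ¬ bad q)).card : ℝ) = P.card := by
      exact_mod_cast h1
    have e1 : R ^ (5 * d) = (R ^ 5) ^ d := by rw [pow_mul]
    have e2 : 4 * C ^ 2 * ((R ^ 5) ^ d / (W : ℝ) ^ d) * ε =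
        (1 / 2) * ((R ^ 5) ^ d / (C ^ 2 * 2 ^ d * (W : ℝ) ^ d)) := by
      rw [hε]
      field_simp
      ring
    have e3 : (1 / (2 * C ^ 2 * 2 ^ d * W ^ d)) * (R ^ 5) ^ d =
        (1 / 2) * ((R ^ 5) ^ d / (C ^ 2 * 2 ^ d * (W : ℝ) ^ d)) := by
      field_simp
    rw [e1, e3]
    rw [e2] at hbadc
    linarith
  refine ⟨P.filter (fun q => ¬ bad q), ?_, ?_⟩
  · intro q hq
    rw [mem_filter, hP, mem_product] at hq
    obtain ⟨⟨h1, h2⟩, h3⟩ := hq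
    obtain ⟨g1, g2⟩ := (mB _).mp h2
    refine ⟨?_, (mA _).mp h1, g2, ?_⟩
    · intro h0
      obtain ⟨y, hy⟩ := hW2 _ g1
      apply two_not (-(2 * q.1 ^ 3 + 54 * y + 54 * y ^ 2 + 13))
      rw [hy] at h0
      linear_combination h0
    · intro 𝔭 hp hp0 hcon
      apply h3
      rw [hbad]
      exact ⟨𝔭, hp, hp0, hcon⟩
  · rw [← hd]
    exact hgood

end Pool.Agent.L0h50.NR
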