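import Pool.Agent.L0h50.NR.Sum
import Pool.Agent.L0h50.NR.Low
import Pool.Agent.L0h50.NR.Red
import Pool.Agent.L0h17.NR.APX
import Pool.Agent.L0h17.NR.RED1
import Pool.Agent.L0h19.NR.Alg
import Pool.Agent.L0h48.NR.DEN
import Pool.Agent.L0h83.NR.D1C
import Pool.Agent.L0h83.NR.D1E
import Pool.Agent.L0h90.NR.Pair
import Pool.Agent.L0h90.NR.Half
import Pool.Agent.L0h90.NR.Eqv
import Pool.Agent.L0h95.NR.COS

/-!
# NR: assembly
-/

set_option autoImplicit false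

open NumberField Finset
open scoped Classical

namespace Pool.Agent.L0h50.NR

/-- the sum over the curves up to a given height -/
theorem sum_fin : S_SUM :=
  sum (Pool.Agent.L0h95.NR.cos (fp Pool.Agent.L0h48.NR.den Pool.Agent.L0h19.NR.alg)
      Pool.Agent.L0h90.NR.eqv Pool.Agent.L0h90.NR.half Pool.Agent.L0h90.NR.pair)
    (d3 (Pool.Agent.L0h83.NR.d1e Pool.Agent.L0h83.NR.d1c)
      (red Pool.Agent.L0h17.NR.red1 Pool.Agent.L0h17.NR.apx Pool.Agent.L0h17.NR.cov))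

section

variable {F : Type} [Field F] [NumberField F]

/-- the members of the family up to the height `X` -/
def Mem (X : ℝ) (p : 𝓞 F × 𝓞 F) : Prop :=
  4 * p.1 ^ 3 + 27 * p.2 ^ 2 ≠ 0 ∧
  (∀ 𝔭 : Ideal (𝓞 F), 𝔭.IsPrime → 𝔭 ≠ ⊥ → ¬ (p.1 ∈ 𝔭 ^ 4 ∧ p.2 ∈ 𝔭 ^ 6)) ∧
  ∀ σ : F →+* ℂ, 4 * ‖σ (p.1 : F)‖ ^ 3 ≤ X ∧ 27 * ‖σ (p.2 : F)‖ ^ 2 ≤ X

theorem mem_fin (X : ℝ) : {p : 𝓞 F × 𝓞 F | Mem X p}.Finite := by
  obtain ⟨-, C, -, h1, -⟩ := Pool.Agent.N490.PF.pts F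
  obtain ⟨h2, -⟩ := h1 (max 1 X) (le_max_left _ _)
  refine (h2.prod h2).subset ?_
  rintro ⟨a, b⟩ ⟨-, -, h3⟩
  have hm : (1 : ℝ) ≤ max 1 X := le_max_left _ _
  have hX : X ≤ max 1 X := le_max_right _ _
  refine ⟨fun σ => ?_, fun σ => ?_⟩
  · by_contra hc
    push Not at hc
    have h4 := (h3 σ).1
    have h5 : (1 : ℝ) ≤ ‖σ (a : F)‖ := hm.trans hc.le
    have h6 : ‖σ (a : F)‖ ≤ ‖σ (a : F)‖ ^ 3 := le_self_pow₀ h5 (by norm_num)
    simp only at h4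
    linarith
  · by_contra hc
    push Not at hc
    have h4 := (h3 σ).2
    have h5 : (1 : ℝ) ≤ ‖σ (b : F)‖ := hm.trans hc.le
    have h6 : ‖σ (b : F)‖ ≤ ‖σ (b : F)‖ ^ 2 := le_self_pow₀ h5 (by norm_num)
    simp only at h4
    linarith

theorem mem_mono {X Y : ℝ} (h : X ≤ Y) {p : 𝓞 F × 𝓞 F} (hp : Mem X p) : Mem Y p :=
  ⟨hp.1, hp.2.1, fun σ => ⟨(hp.2.2 σ).1.trans h, (hp.2.2 σ).2.trans h⟩⟩

/-- the rank of a twist -/
noncomputable def rkt (d : 𝓞 F) (p : 𝓞 F × 𝓞 F) : ℕ :=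
  Module.finrank ℤ (crv ((d : F) ^ 2 * (p.1 : F)) ((d : F) ^ 3 * (p.2 : F))).toAffine.Point

theorem tw_large (d : 𝓞 F) (hd : d ≠ 0) : ∃ (C X₀ : ℝ), 0 < C ∧ ∀ X : ℝ, X₀ ≤ X →
    ∀ S : Finset (𝓞 F × 𝓞 F), (∀ p ∈ S, Mem X p) →
    ∑ p ∈ S, (2 : ℝ) ^ rkt d p ≤ C * ({p : 𝓞 F × 𝓞 F | Mem X p}.ncard : ℝ) := by
  obtain ⟨K, hK, hsum⟩ := sum_fin F
  obtain ⟨c, R₀, hc, hlow⟩ := low F
  obtain ⟨D₀, hD₀⟩ := (Set.finite_range fun σ : F →+* ℂ => ‖σ (d : F)‖).bddAbove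
  have hD1 : (1 : ℝ) ≤ max 1 D₀ := le_max_left _ _
  set D : ℝ := max 1 D₀ with hD
  have hDσ : ∀ σ : F →+* ℂ, ‖σ (d : F)‖ ≤ D := fun σ =>
    (hD₀ ⟨σ, rfl⟩).trans (le_max_right _ _)
  set n := Module.finrank ℚ F with hn
  refine ⟨K * D ^ (5 * n) * 2 ^ (5 * n) / c, max 1 (2 * R₀) ^ 6, by positivity, ?_⟩
  intro X hX S hS
  have hX1 : 1 ≤ X := le_trans (one_le_pow₀ (le_max_left _ _)) hX
  have hX0 : 0 ≤ X := by linarith
  set T : ℝ := X ^ (1 / 6 : ℝ) with hT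
  have hT0 : 0 ≤ T := Real.rpow_nonneg hX0 _
  have hT6 : T ^ 6 = X := by
    rw [hT, ← Real.rpow_natCast, ← Real.rpow_mul hX0]
    norm_num
  have hTm : max 1 (2 * R₀) ≤ T := by
    refine le_of_pow_le_pow_left₀ (n := 6) (by norm_num) hT0 ?_
    rw [hT6]
    exact hX
  have hT1 : 1 ≤ T := (le_max_left _ _).trans hTm
  have hTR : R₀ ≤ T / 2 := by
    have := (le_max_right 1 (2 * R₀)).trans hTm
    linarith
  -- the sum
  have hdF : (d : F) ≠ 0 := by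
    simpa using hd
  let φ : 𝓞 F × 𝓞 F → 𝓞 F × 𝓞 F := fun p => (d ^ 2 * p.1, d ^ 3 * p.2)
  have hφ : Function.Injective φ := by
    rintro ⟨a, b⟩ ⟨a', b'⟩ h
    simp only [φ, Prod.mk.injEq] at h
    obtain ⟨h1, h2⟩ := h
    rw [mul_right_inj' (pow_ne_zero _ hd)] at h1 h2
    rw [h1, h2]
  have hs := hsum (D * T) (S.image φ) (by nlinarith) (by
    intro q hq
    rw [mem_image] at hq
    obtain ⟨p, hp, rfl⟩ := hq
    obtain ⟨h1, -, h3⟩ := hS p hp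
    refine ⟨?_, fun σ => ?_, fun σ => ?_⟩
    · have e : 4 * (φ p).1 ^ 3 + 27 * (φ p).2 ^ 2 = d ^ 6 * (4 * p.1 ^ 3 + 27 * p.2 ^ 2) := by
        simp only [φ]
        ring
      rw [e]
      exact mul_ne_zero (pow_ne_zero _ hd) h1
    · have h4 : ‖σ (p.1 : F)‖ ≤ T ^ 2 := by
        refine le_of_pow_le_pow_left₀ (n := 3) (by norm_num) (by positivity) ?_
        have h5 := (h3 σ).1
        have h6 : 0 ≤ ‖σ (p.1 : F)‖ ^ 3 := by positivity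
        calc ‖σ (p.1 : F)‖ ^ 3 ≤ X := by linarith
          _ = (T ^ 2) ^ 3 := by rw [← hT6]; ring
      simp only [φ, map_mul, map_pow, norm_mul, norm_pow]
      calc ‖σ (d : F)‖ ^ 2 * ‖σ (p.1 : F)‖ ≤ D ^ 2 * T ^ 2 := by
            have := hDσ σ
            gcongr
        _ = (D * T) ^ 2 := by ring
    · have h4 : ‖σ (p.2 : F)‖ ≤ T ^ 3 := by
        refine le_of_pow_le_pow_left₀ (n := 2) (by norm_num) (by positivity) ?_
        have h5 := (h3 σ).2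
        have h6 : 0 ≤ ‖σ (p.2 : F)‖ ^ 2 := by positivity
        calc ‖σ (p.2 : F)‖ ^ 2 ≤ X := by linarith
          _ = (T ^ 3) ^ 2 := by rw [← hT6]; ring
      simp only [φ, map_mul, map_pow, norm_mul, norm_pow]
      calc ‖σ (d : F)‖ ^ 3 * ‖σ (p.2 : F)‖ ≤ D ^ 3 * T ^ 3 := by
            have := hDσ σ
            gcongr
        _ = (D * T) ^ 3 := by ring)
  rw [sum_image (fun a _ b _ h => hφ h)] at hs
  have hs' : ∑ p ∈ S, (2 : ℝ) ^ rkt d p ≤ K * (D * T) ^ (5 * n) := by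
    refine le_trans (le_of_eq (sum_congr rfl fun p _ => ?_)) hs
    have e1 : (((φ p).1 : 𝓞 F) : F) = (d : F) ^ 2 * (p.1 : F) := by
      simp only [φ]
      push_cast
      rfl
    have e2 : (((φ p).2 : 𝓞 F) : F) = (d : F) ^ 3 * (p.2 : F) := by
      simp only [φ]
      push_cast
      rfl
    simp only [rkt]
    rw [e1, e2]
  -- the lower bound
  obtain ⟨S', hS', hcard⟩ := hlow (T / 2) hTR
  have hsub : (S' : Set (𝓞 F × 𝓞 F)) ⊆ {p : 𝓞 F × 𝓞 F | Mem X p} := by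
    intro q hq
    obtain ⟨h1, h2, h3, h4⟩ := hS' q hq
    refine ⟨h1, h4, fun σ => ⟨?_, ?_⟩⟩
    · have h5 := h2 σ
      calc 4 * ‖σ (q.1 : F)‖ ^ 3 ≤ 4 * ((T / 2) ^ 2) ^ 3 := by gcongr
        _ = T ^ 6 / 16 := by ring
        _ ≤ X := by rw [hT6]; linarith
    · have h5 := h3 σ
      calc 27 * ‖σ (q.2 : F)‖ ^ 2 ≤ 27 * ((T / 2) ^ 3) ^ 2 := by gcongr
        _ = 27 / 64 * T ^ 6 := by ring
        _ ≤ X := by rw [hT6]; linarith
  have hcard2 : (S'.card : ℝ) ≤ ({p : 𝓞 F × 𝓞 F | Mem X p}.ncard : ℝ) := by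
    have := Set.ncard_le_ncard hsub (mem_fin X)
    rw [Set.ncard_coe_finset] at this
    exact_mod_cast this
  calc ∑ p ∈ S, (2 : ℝ) ^ rkt d p ≤ K * (D * T) ^ (5 * n) := hs'
    _ = K * D ^ (5 * n) * 2 ^ (5 * n) / c * (c * (T / 2) ^ (5 * n)) := by
        have e1 : (D * T) ^ (5 * n) = D ^ (5 * n) * T ^ (5 * n) := mul_pow _ _ _
        have e2 : (T / 2) ^ (5 * n) = T ^ (5 * n) / 2 ^ (5 * n) := div_pow _ _ _
        have e3 : (2 : ℝ) ^ (5 * n) ≠ 0 := by positivity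
        rw [e1, e2, div_mul_eq_mul_div, eq_div_iff hc.ne', mul_div_assoc']
        rw [mul_div_assoc', eq_div_iff e3]
        ring
    _ ≤ K * D ^ (5 * n) * 2 ^ (5 * n) / c * ({p : 𝓞 F × 𝓞 F | Mem X p}.ncard : ℝ) := by
        have := hcard.trans hcard2
        gcongr

/-- the average of `2 ^ rank` for a twist -/
theorem tw (d : 𝓞 F) (hd : d ≠ 0) : ∃ C : ℝ, 0 < C ∧ ∀ X : ℝ,
    ∀ S : Finset (𝓞 F × 𝓞 F), (∀ p ∈ S, Mem X p) →
    ∑ p ∈ S, (2 : ℝ) ^ rkt d p ≤ C * ({p : 𝓞 F × 𝓞 F | Mem X p}.ncard : ℝ) := by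
  obtain ⟨C, X₀, hC, h⟩ := tw_large d hd
  set C₁ : ℝ := ∑ p ∈ (mem_fin (F := F) X₀).toFinset, (2 : ℝ) ^ rkt d p with hC₁
  have h0 : 0 ≤ C₁ := sum_nonneg fun p _ => by positivity
  refine ⟨C + C₁, by positivity, fun X S hS => ?_⟩
  rcases le_or_gt X₀ X with hX | hX
  · refine (h X hX S hS).trans ?_
    gcongr
    linarith
  · rcases S.eq_empty_or_nonempty with he | ⟨p₀, hp₀⟩
    · rw [he, sum_empty]
      positivity
    · have h1 : ∑ p ∈ S, (2 : ℝ) ^ rkt d p ≤ C₁ := by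
        refine sum_le_sum_of_subset_of_nonneg ?_ (fun p _ _ => by positivity)
        intro p hp
        rw [Set.Finite.mem_toFinset]
        exact mem_mono hX.le (hS p hp)
      have h2 : (1 : ℝ) ≤ ({p : 𝓞 F × 𝓞 F | Mem X p}.ncard : ℝ) := by
        have : 0 < {p : 𝓞 F × 𝓞 F | Mem X p}.ncard :=
          (Set.ncard_pos (mem_fin X)).mpr ⟨p₀, hS p₀ hp₀⟩
        exact_mod_cast this
      calc ∑ p ∈ S, (2 : ℝ) ^ rkt d p ≤ C₁ := h1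
        _ ≤ (C + C₁) * 1 := by linarith
        _ ≤ (C + C₁) * ({p : 𝓞 F × 𝓞 F | Mem X p}.ncard : ℝ) := by gcongr

/-- several twists -/
theorem tws {ι : Type} [Fintype ι] (d : ι → 𝓞 F) (hd : ∀ i, d i ≠ 0) : ∃ C : ℝ, 0 < C ∧ ∀ X : ℝ,
    ∀ S : Finset (𝓞 F × 𝓞 F), (∀ p ∈ S, Mem X p) →
    ∑ p ∈ S, ∑ i, (2 : ℝ) ^ rkt (d i) p ≤ C * ({p : 𝓞 F × 𝓞 F | Mem X p}.ncard : ℝ) := by
  choose C hC h using fun i => tw (d i) (hd i)
  refine ⟨1 + ∑ i, C i, by have := sum_nonneg fun i (_ : i ∈ univ) => (hC i).le; linarith,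
    fun X S hS => ?_⟩
  rw [sum_comm]
  calc ∑ i, ∑ p ∈ S, (2 : ℝ) ^ rkt (d i) p ≤
        ∑ i, C i * ({p : 𝓞 F × 𝓞 F | Mem X p}.ncard : ℝ) := sum_le_sum fun i _ => h i X S hS
    _ = (∑ i, C i) * ({p : 𝓞 F × 𝓞 F | Mem X p}.ncard : ℝ) := by rw [sum_mul]
    _ ≤ _ := by
        gcongr
        linarith

end

theorem le_tws {ι : Type} [Fintype ι] [Nonempty ι] (r : ι → ℕ) (m : ℕ) (h : m ≤ ∑ i, r i) :
    (2 : ℝ) ^ ((m : ℝ) / Fintype.card ι) ≤ ∑ i, (2 : ℝ) ^ r i := by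
  have hc : (0 : ℝ) < Fintype.card ι := by exact_mod_cast Fintype.card_pos
  obtain ⟨i, -, hi⟩ : ∃ i ∈ (univ : Finset ι), (m : ℝ) / Fintype.card ι ≤ r i := by
    by_contra hcon
    push Not at hcon
    have h1 : ∑ i, (r i : ℝ) < ∑ i : ι, (m : ℝ) / Fintype.card ι :=
      sum_lt_sum_of_nonempty univ_nonempty hcon
    rw [sum_const, card_univ, nsmul_eq_mul, mul_div_cancel₀ _ hc.ne'] at h1
    have h2 : (m : ℝ) ≤ ∑ i, (r i : ℝ) := by exact_mod_cast h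
    linarith
  calc (2 : ℝ) ^ ((m : ℝ) / Fintype.card ι) ≤ (2 : ℝ) ^ (r i : ℝ) :=
        Real.rpow_le_rpow_of_exponent_le (by norm_num) hi
    _ = (2 : ℝ) ^ r i := Real.rpow_natCast _ _
    _ ≤ ∑ i, (2 : ℝ) ^ r i := single_le_sum (f := fun i => (2 : ℝ) ^ r i)
        (fun j _ => by positivity) (mem_univ i)

/-- multiquadratic extensions -/
theorem mq (h : S_RKQ) (F K : Type) [Field F] [NumberField F] [Field K] [NumberField K] [Algebra F K]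
    [IsGalois F K] (hq : ∀ σ : K ≃ₐ[F] K, σ * σ = 1) : ∃ C : ℝ, 0 < C ∧ ∀ X : ℝ,
    ∀ S : Finset (𝓞 F × 𝓞 F), (∀ p ∈ S, Mem X p) →
    ∑ p ∈ S, (2 : ℝ) ^ ((Module.finrank ℤ
        (crv (algebraMap F K (p.1 : F)) (algebraMap F K (p.2 : F))).toAffine.Point : ℝ) /
          Module.finrank F K) ≤
      C * ({p : 𝓞 F × 𝓞 F | Mem X p}.ncard : ℝ) := by
  obtain ⟨d, hd, hr⟩ := h F K hq
  obtain ⟨C, hC, hs⟩ := tws d hd
  refine ⟨C, hC, fun X S hS => (sum_le_sum fun p hp => ?_).trans (hs X S hS)⟩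
  have hpos : 0 < Module.finrank F K := Module.finrank_pos
  haveI : Nonempty (Fin (Module.finrank F K)) := ⟨⟨0, hpos⟩⟩
  have h1 := hr (p.1 : F) (p.2 : F) (by
    have h2 := (hS p hp).1
    intro h3
    apply h2
    apply NumberField.RingOfIntegers.coe_injective
    rw [map_zero, ← h3]
    simp only [map_add, map_mul, map_pow, map_ofNat])
  have h2 := le_tws (fun i => rkt (d i) p) _ h1
  rw [Fintype.card_fin] at h2
  exact h2

end Pool.Agent.L0h50.NR
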