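import Pool.Agent.L0h50.NR.Fin
import Pool.Agent.L0h45.NF.Main
import Pool.Agent.L0h37.NR.RKQ

/-!
# NR: assembly, vertical lines
-/

set_option autoImplicit false

open NumberField Finset
open scoped Classical

namespace Pool.Agent.L0h50.NR

section

variable {F : Type} [Field F] [NumberField F]

/-- the numbers `B` up to `X` on the vertical line of `A` -/
def Lin (A : 𝓞 F) (X : ℝ) : Set (𝓞 F) :=
  {B | 4 * A ^ 3 + 27 * B ^ 2 ≠ 0 ∧ ∀ σ : F →+* ℂ, ‖σ (B : F)‖ ≤ X}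

theorem lin_fin (A : 𝓞 F) (X : ℝ) : (Lin A X).Finite := by
  obtain ⟨-, C, -, h1, -⟩ := Pool.Agent.N490.PF.pts F
  obtain ⟨h2, -⟩ := h1 (max 1 X) (le_max_left _ _)
  refine h2.subset ?_
  rintro B ⟨-, h3⟩ σ
  exact (h3 σ).trans (le_max_right _ _)

theorem lin_card (F : Type) [Field F] [NumberField F] : ∃ C : ℝ, 0 < C ∧ ∀ (A : 𝓞 F) (X : ℝ), 1 ≤ X →
    X ^ Module.finrank ℚ F ≤ C * ((Lin A X).ncard : ℝ) := by
  obtain ⟨-, C, hC, h1, -⟩ := Pool.Agent.N490.PF.pts F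
  refine ⟨C * 3, by positivity, fun A X hX => ?_⟩
  obtain ⟨h2, h3⟩ := h1 X hX
  have hz : {B : 𝓞 F | 4 * A ^ 3 + 27 * B ^ 2 = 0}.Finite ∧
      {B : 𝓞 F | 4 * A ^ 3 + 27 * B ^ 2 = 0}.ncard ≤ 2 := by
    rcases Set.eq_empty_or_nonempty {B : 𝓞 F | 4 * A ^ 3 + 27 * B ^ 2 = 0} with he | ⟨B₀, hB₀⟩
    · rw [he]
      simp
    · have hs : {B : 𝓞 F | 4 * A ^ 3 + 27 * B ^ 2 = 0} ⊆ ({B₀, -B₀} : Set (𝓞 F)) := by
        intro B hB
        have e1 : 4 * A ^ 3 + 27 * B ^ 2 = 0 := hB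
        have e2 : 4 * A ^ 3 + 27 * B₀ ^ 2 = 0 := hB₀
        have e3 : (27 : 𝓞 F) * ((B - B₀) * (B + B₀)) = 0 := by linear_combination e1 - e2
        have e4 : (27 : 𝓞 F) ≠ 0 := by norm_num
        rcases mul_eq_zero.1 ((mul_eq_zero.1 e3).resolve_left e4) with h | h
        · left
          exact sub_eq_zero.1 h
        · right
          exact eq_neg_of_add_eq_zero_left h
      have hf : ({B₀, -B₀} : Set (𝓞 F)).Finite := Set.toFinite _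
      exact ⟨hf.subset hs, (Set.ncard_le_ncard hs hf).trans ((Set.ncard_insert_le _ _).trans
        (by rw [Set.ncard_singleton]))⟩
  have hne : 1 ≤ (Lin A X).ncard := by
    rw [Nat.one_le_iff_ne_zero, ← Nat.pos_iff_ne_zero, Set.ncard_pos (lin_fin A X)]
    by_cases h0 : 4 * A ^ 3 + 27 * (0 : 𝓞 F) ^ 2 = 0
    · refine ⟨1, ?_, fun σ => by simpa using hX⟩
      intro h5
      have e3 : (27 : 𝓞 F) = 0 := by linear_combination h5 - h0
      norm_num at e3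
    · exact ⟨0, h0, fun σ => by simp; linarith⟩
  have hsub : {a : 𝓞 F | Pool.Agent.N783.PF.Bd (a : F) X} ⊆
      Lin A X ∪ {B : 𝓞 F | 4 * A ^ 3 + 27 * B ^ 2 = 0} := by
    intro B hB
    by_cases h0 : 4 * A ^ 3 + 27 * B ^ 2 = 0
    · exact Or.inr h0
    · exact Or.inl ⟨h0, hB⟩
  have h4 : {a : 𝓞 F | Pool.Agent.N783.PF.Bd (a : F) X}.ncard ≤ 3 * (Lin A X).ncard := by
    have h5 := (Set.ncard_le_ncard hsub ((lin_fin A X).union hz.1)).trans (Set.ncard_union_le _ _)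
    have h6 := hz.2
    omega
  have h5 : ({a : 𝓞 F | Pool.Agent.N783.PF.Bd (a : F) X}.ncard : ℝ) ≤ 3 * ((Lin A X).ncard : ℝ) := by
    exact_mod_cast h4
  calc X ^ Module.finrank ℚ F ≤ C * ({a : 𝓞 F | Pool.Agent.N783.PF.Bd (a : F) X}.ncard : ℝ) := h3
    _ ≤ C * (3 * ((Lin A X).ncard : ℝ)) := by gcongr
    _ = C * 3 * ((Lin A X).ncard : ℝ) := by ring

/-- a twist on the vertical lines -/
theorem line_tw (d : 𝓞 F) (hd : d ≠ 0) : ∃ C : ℝ, 0 < C ∧ ∀ (A : 𝓞 F) (X : ℝ), 1 ≤ X →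
    (∀ σ : F →+* ℂ, ‖σ (A : F)‖ ^ 3 ≤ X ^ 2) →
    ∑ B ∈ (lin_fin A X).toFinset, (2 : ℝ) ^ rkt d (A, B) ≤ C * ((Lin A X).ncard : ℝ) := by
  obtain ⟨K, hK, hsum⟩ := Pool.Agent.L0h45.NF.line F
  obtain ⟨c, hc, hlow⟩ := lin_card F
  obtain ⟨D₀, hD₀⟩ := (Set.finite_range fun σ : F →+* ℂ => ‖σ (d : F)‖).bddAbove
  have hD1 : (1 : ℝ) ≤ max 1 D₀ := le_max_left _ _
  set D : ℝ := max 1 D₀ with hD
  have hDσ : ∀ σ : F →+* ℂ, ‖σ (d : F)‖ ≤ D := fun σ =>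
    (hD₀ ⟨σ, rfl⟩).trans (le_max_right _ _)
  set n := Module.finrank ℚ F with hn
  refine ⟨K * (D ^ 3) ^ n * c, by positivity, fun A X hX hA => ?_⟩
  have hφ : Function.Injective fun B : 𝓞 F => d ^ 3 * B := by
    intro b b' h
    simp only at h
    rwa [mul_right_inj' (pow_ne_zero _ hd)] at h
  have hD3 : 1 ≤ D ^ 3 := one_le_pow₀ hD1
  have hs := hsum (D ^ 3 * X) (by nlinarith) (d ^ 2 * A) (fun σ => by
      simp only [map_mul, map_pow, norm_mul, norm_pow]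
      have h1 := hA σ
      have h2 := hDσ σ
      calc (‖σ (d : F)‖ ^ 2 * ‖σ (A : F)‖) ^ 3 = ‖σ (d : F)‖ ^ 6 * ‖σ (A : F)‖ ^ 3 := by ring
        _ ≤ D ^ 6 * X ^ 2 := by gcongr
        _ = (D ^ 3 * X) ^ 2 := by ring)
    ((lin_fin A X).toFinset.image fun B : 𝓞 F => d ^ 3 * B) (by
      intro q hq
      rw [mem_image] at hq
      obtain ⟨B, hB, rfl⟩ := hq
      rw [Set.Finite.mem_toFinset] at hB
      obtain ⟨h1, h2⟩ := hB
      refine ⟨?_, fun σ => ?_⟩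
      · have e : 4 * (d ^ 2 * A) ^ 3 + 27 * (d ^ 3 * B) ^ 2 = d ^ 6 * (4 * A ^ 3 + 27 * B ^ 2) := by ring
        rw [e]
        exact mul_ne_zero (pow_ne_zero _ hd) h1
      · simp only [map_mul, map_pow, norm_mul, norm_pow]
        have h3 := h2 σ
        have h4 := hDσ σ
        gcongr)
  rw [sum_image (fun a _ b _ h => hφ h)] at hs
  have hs' : ∑ B ∈ (lin_fin A X).toFinset, (2 : ℝ) ^ rkt d (A, B) ≤ K * (D ^ 3 * X) ^ n := by
    refine le_trans (le_of_eq (sum_congr rfl fun B _ => ?_)) hs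
    have e1 : ((d ^ 2 * A : 𝓞 F) : F) = (d : F) ^ 2 * (A : F) := by
      push_cast
      rfl
    have e2 : ((d ^ 3 * B : 𝓞 F) : F) = (d : F) ^ 3 * (B : F) := by
      push_cast
      rfl
    simp only [rkt]
    rw [e1, e2]
  calc ∑ B ∈ (lin_fin A X).toFinset, (2 : ℝ) ^ rkt d (A, B) ≤ K * (D ^ 3 * X) ^ n := hs'
    _ = K * (D ^ 3) ^ n * X ^ n := by rw [mul_pow (D ^ 3) X n]; ring
    _ ≤ K * (D ^ 3) ^ n * (c * ((Lin A X).ncard : ℝ)) := by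
        have := hlow A X hX
        gcongr
    _ = K * (D ^ 3) ^ n * c * ((Lin A X).ncard : ℝ) := by ring

theorem line_tws {ι : Type} [Fintype ι] (d : ι → 𝓞 F) (hd : ∀ i, d i ≠ 0) : ∃ C : ℝ, 0 < C ∧
    ∀ (A : 𝓞 F) (X : ℝ), 1 ≤ X → (∀ σ : F →+* ℂ, ‖σ (A : F)‖ ^ 3 ≤ X ^ 2) →
    ∑ B ∈ (lin_fin A X).toFinset, ∑ i, (2 : ℝ) ^ rkt (d i) (A, B) ≤ C * ((Lin A X).ncard : ℝ) := by
  choose C hC h using fun i => line_tw (d i) (hd i)
  refine ⟨1 + ∑ i, C i, by have := sum_nonneg fun i (_ : i ∈ univ) => (hC i).le; linarith,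
    fun A X hX hA => ?_⟩
  rw [sum_comm]
  calc ∑ i, ∑ B ∈ (lin_fin A X).toFinset, (2 : ℝ) ^ rkt (d i) (A, B) ≤
        ∑ i, C i * ((Lin A X).ncard : ℝ) := sum_le_sum fun i _ => h i A X hX hA
    _ = (∑ i, C i) * ((Lin A X).ncard : ℝ) := by rw [sum_mul]
    _ ≤ _ := by
        gcongr
        linarith

end

/-- multiquadratic extensions and vertical lines -/
theorem line_mq (h : S_RKQ) (F K : Type) [Field F] [NumberField F] [Field K] [NumberField K]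
    [Algebra F K] [IsGalois F K] (hq : ∀ σ : K ≃ₐ[F] K, σ * σ = 1) : ∃ C : ℝ, 0 < C ∧
    ∀ (A : 𝓞 F) (X : ℝ), 1 ≤ X → (∀ σ : F →+* ℂ, ‖σ (A : F)‖ ^ 3 ≤ X ^ 2) →
    ∑ B ∈ (lin_fin A X).toFinset, (2 : ℝ) ^ ((Module.finrank ℤ
        (crv (algebraMap F K (A : F)) (algebraMap F K (B : F))).toAffine.Point : ℝ) /
          Module.finrank F K) ≤
      C * ((Lin A X).ncard : ℝ) := by
  obtain ⟨d, hd, hr⟩ := h F K hq
  obtain ⟨C, hC, hs⟩ := line_tws d hd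
  refine ⟨C, hC, fun A X hX hA => (sum_le_sum fun B hB => ?_).trans (hs A X hX hA)⟩
  have hpos : 0 < Module.finrank F K := Module.finrank_pos
  have hne : Nonempty (Fin (Module.finrank F K)) := ⟨⟨0, hpos⟩⟩
  rw [Set.Finite.mem_toFinset] at hB
  have h1 := hr (A : F) (B : F) (by
    have h2 := hB.1
    intro h3
    apply h2
    apply NumberField.RingOfIntegers.coe_injective
    rw [map_zero, ← h3]
    simp only [map_add, map_mul, map_pow, map_ofNat])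
  have h2 := le_tws (fun i => rkt (d i) (A, B)) _ h1
  rw [Fintype.card_fin] at h2
  exact h2

end Pool.Agent.L0h50.NR
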